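import Mathlib

/-!
# Analyticity of Hankel tori (MP_301177_an): definitions and statements

If `s_{r+1} ≤ δ s_r` with `δ < 1`, every element of the torus `T((s_r))` is holomorphic and uniformly
bounded in `|z| < 1 + ρ`, `ρ = ρ(δ)`. Proofs: see `notes.md` in this folder.
-/

set_option autoImplicit false

open ComplexConjugate Finset

namespace Pool.Agent.R286.HT

/-- `L²_+` in terms of Fourier coefficients -/
noncomputable abbrev H2 := lp (fun _ : ℕ => ℂ) 2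

/-- Fourier coefficients of `H_u h = Π(u \bar h)` -/
noncomputable def hankel (u h : ℕ → ℂ) : ℕ → ℂ := fun n => ∑' m, u (n + m) * conj (h m)

/-- Fourier coefficients of `S h` -/
def shift (h : ℕ → ℂ) : ℕ → ℂ
  | 0 => 0
  | n + 1 => h n

/-- square summable sequences -/
def L2 (h : ℕ → ℂ) : Prop := Summable fun n => ‖h n‖ ^ 2

/-- The positive eigenvalues of `T²` on `L²_+` are exactly the numbers `ρ_j²`, all simple. -/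
def SimpleSpectrum (T : (ℕ → ℂ) → ℕ → ℂ) (ρ : ℕ → ℝ) : Prop :=
  (∀ t : ℝ, 0 < t → ((∃ h : ℕ → ℂ, L2 h ∧ h ≠ 0 ∧ T (T h) = fun n => (t : ℂ) * h n) ↔
    ∃ j, t = ρ j ^ 2)) ∧
  ∀ j, ∀ h g : ℕ → ℂ, L2 h → L2 g → T (T h) = (fun n => ((ρ j ^ 2 : ℝ) : ℂ) * h n) →
    T (T g) = (fun n => ((ρ j ^ 2 : ℝ) : ℂ) * g n) → g ≠ 0 → ∃ c : ℂ, h = fun n => c * g n

/-- The torus `T((s_r))` (indices start at `0`: `ρ_j = s (2j)`, `σ_k = s (2k+1)`, `j, k ≥ 0`). -/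
def Torus (s : ℕ → ℝ) : Set (ℕ → ℂ) :=
  {u | (Summable fun n : ℕ => (1 + (n : ℝ)) * ‖u n‖ ^ 2) ∧
    SimpleSpectrum (hankel u) (fun j => s (2 * j)) ∧
    SimpleSpectrum (fun h => hankel u (shift h)) (fun k => s (2 * k + 1))}

/-- CORE: strict contraction from interpolation and the spectral gap. -/
def StCore : Prop := ∀ δ : ℝ, 0 < δ → δ < 1 → ∃ q : ℝ, 0 < q ∧ q < 1 ∧
  ∀ (E : Type) [NormedAddCommGroup E] [InnerProductSpace ℂ E] (s : ℕ → ℝ), (∀ r, 0 < s r) →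
    (∀ r, s (r + 1) ≤ δ * s r) → ∀ e f : ℕ → E, Orthonormal ℂ e → Orthonormal ℂ f →
      (∀ (J K : Finset ℕ) (x : ℕ → ℂ),
        ∑ k ∈ K, s (2 * k + 1) ^ 2 * ‖inner ℂ (f k) (∑ j ∈ J, x j • e j)‖ ^ 2 ≤
          ∑ j ∈ J, s (2 * j) ^ 2 * ‖x j‖ ^ 2) →
        ∀ (J K : Finset ℕ) (x y : ℕ → ℂ),
          ‖∑ j ∈ J, ∑ k ∈ K, (((s (2 * k + 1) / s (2 * j)) ^ (1 / 2 : ℝ) : ℝ) : ℂ) * x j *
            conj (y k) * inner ℂ (f k) (e j)‖ ≤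
            q * Real.sqrt (∑ j ∈ J, ‖x j‖ ^ 2) * Real.sqrt (∑ k ∈ K, ‖y k‖ ^ 2)

/-- The operators `H_u` (called `T`) and `K_u` (called `K`) on `L²_+`. -/
structure Ops (u : ℕ → ℂ) (T K : H2 →SL[starRingEnd ℂ] H2) : Prop where
  hT : ∀ (x : H2) (n : ℕ), (T x : ℕ → ℂ) n = hankel u x n
  hK : ∀ (x : H2) (n : ℕ), (K x : ℕ → ℂ) n = hankel u (shift x) n
  hTK : ∀ (x : H2) (n : ℕ), (K x : ℕ → ℂ) n = (T x : ℕ → ℂ) (n + 1)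
  hTs : ∀ x y : H2, inner ℂ y (T x) = inner ℂ x (T y)
  hKs : ∀ x y : H2, inner ℂ y (K x) = inner ℂ x (K y)
  hTc : IsCompactOperator T
  hKc : IsCompactOperator K

/-- OPS: construction of the operators (they are Hilbert-Schmidt). -/
def StOps : Prop := ∀ u : ℕ → ℂ, (Summable fun n : ℕ => (1 + (n : ℝ)) * ‖u n‖ ^ 2) →
  ∃ T K : H2 →SL[starRingEnd ℂ] H2, Ops u T K

/-- eigenbases -/
structure EigSys (s : ℕ → ℝ) (T K : H2 →SL[starRingEnd ℂ] H2) (e f : ℕ → H2) : Prop where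
  he : Orthonormal ℂ e
  hf : Orthonormal ℂ f
  hTe : ∀ j, ∃ c : ℂ, ‖c‖ = s (2 * j) ∧ T (e j) = c • e j
  hKf : ∀ k, ∃ c : ℂ, ‖c‖ = s (2 * k + 1) ∧ K (f k) = c • f k
  hT0 : ∀ x, (∀ j, inner ℂ (e j) x = 0) → T x = 0
  hK0 : ∀ x, (∀ k, inner ℂ (f k) x = 0) → K x = 0

/-- SPEC: eigenbases for elements of the torus (spectral theorem for compact operators). -/
def StSpec : Prop := ∀ (s : ℕ → ℝ), (∀ r, 0 < s r) → (∀ r, s (r + 1) < s r) → ∀ u ∈ Torus s,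
  ∀ T K : H2 →SL[starRingEnd ℂ] H2, Ops u T K → ∃ e f : ℕ → H2, EigSys s T K e f

/-- COEF: exponential decay of the Fourier coefficients. -/
def StCoef : Prop := ∀ δ : ℝ, 0 < δ → δ < 1 → ∃ q : ℝ, 0 < q ∧ q < 1 ∧
  ∀ (s : ℕ → ℝ), (∀ r, 0 < s r) → (∀ r, s (r + 1) ≤ δ * s r) → ∀ (u : ℕ → ℂ)
    (T K : H2 →SL[starRingEnd ℂ] H2), Ops u T K → ∀ e f : ℕ → H2, EigSys s T K e f →
      ∀ n, ‖u n‖ ≤ s 0 * q ^ n

/-- final statement -/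
def StMain : Prop := ∀ δ : ℝ, 0 < δ → δ < 1 → ∃ ρ : ℝ, 0 < ρ ∧ ∀ s : ℕ → ℝ, (∀ r, 0 < s r) →
  (∀ r, s (r + 1) ≤ δ * s r) → ∃ C : ℝ, ∀ u ∈ Torus s, ∃ F : ℂ → ℂ,
    DifferentiableOn ℂ F (Metric.ball 0 (1 + ρ)) ∧
      (∀ z : ℂ, ‖z‖ < 1 → HasSum (fun n => u n * z ^ n) (F z)) ∧
      ∀ z ∈ Metric.ball (0 : ℂ) (1 + ρ), ‖F z‖ ≤ C

end Pool.Agent.R286.HT
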