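import Mathlib
import Pool.Agent.R286.HT.Stm

/-!
# HT-COEF: exponential decay of the Fourier coefficients from CORE and the eigenbases
-/

set_option autoImplicit false

open ComplexConjugate Finset

namespace Pool.Agent.R286.HT

namespace CoefAux

/-- expansion of a vector in the closed span of an orthonormal family -/
lemma expand {e : ℕ → H2} (he : Orthonormal ℂ e) {w : H2}
    (hw : ∀ z : H2, (∀ j, inner ℂ (e j) z = 0) → inner ℂ z w = 0) :
    HasSum (fun j => (inner ℂ (e j) w) • e j) w := by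
  have hsum : Summable (fun j => (inner ℂ (e j) w) • e j) := by
    have h1 := (he.orthogonalFamily.summable_iff_norm_sq_summable
      (fun j => inner ℂ (e j) w)).mpr (Orthonormal.inner_products_summable w he)
    simpa using h1
  obtain ⟨w', hw'⟩ := hsum
  have hperp : ∀ j, inner ℂ (e j) (w - w') = 0 := by
    intro j
    have h2 : HasSum (fun i => inner ℂ (e j) ((inner ℂ (e i) w) • e i)) (inner ℂ (e j) w') :=
      hw'.mapL (innerSL ℂ (e j))
    have h3 : HasSum (fun i => inner ℂ (e j) ((inner ℂ (e i) w) • e i)) (inner ℂ (e j) w) := by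
      have h4 := hasSum_single (f := fun i => inner ℂ (e j) ((inner ℂ (e i) w) • e i)) j (by
        intro i hi
        rw [inner_smul_right, he.2 hi.symm, mul_zero])
      have h5 : inner ℂ (e j) ((inner ℂ (e j) w) • e j) = inner ℂ (e j) w := by
        rw [inner_smul_right, inner_self_eq_norm_sq_to_K, he.1 j]
        simp
      rwa [h5] at h4
    rw [inner_sub_right, h3.unique h2, sub_self]
  have h6 : inner ℂ (w - w') w = 0 := hw _ hperp
  have h7 : inner ℂ (w - w') w' = 0 := by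
    have h8 : HasSum (fun i => inner ℂ (w - w') ((inner ℂ (e i) w) • e i)) (inner ℂ (w - w') w') :=
      hw'.mapL (innerSL ℂ (w - w'))
    have h9 : (fun i => inner ℂ (w - w') ((inner ℂ (e i) w) • e i)) = fun _ => (0 : ℂ) := by
      funext i
      have h11 : inner ℂ (w - w') (e i) = 0 := by rw [← inner_conj_symm, hperp i, map_zero]
      rw [inner_smul_right, h11, mul_zero]
    rw [h9] at h8
    exact (hasSum_zero.unique h8).symm
  have h10 : inner ℂ (w - w') (w - w') = 0 := by rw [inner_sub_right, h6, h7, sub_self]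
  rw [inner_self_eq_zero, sub_eq_zero] at h10
  rw [← h10] at hw'
  exact hw'

lemma expand_inner {e : ℕ → H2} (he : Orthonormal ℂ e) {w : H2}
    (hw : ∀ z : H2, (∀ j, inner ℂ (e j) z = 0) → inner ℂ z w = 0) (y : H2) :
    HasSum (fun j => inner ℂ (e j) w * inner ℂ y (e j)) (inner ℂ y w) := by
  have h2 : HasSum (fun i => inner ℂ y ((inner ℂ (e i) w) • e i)) (inner ℂ y w) :=
    (expand he hw).mapL (innerSL ℂ y)
  simpa only [inner_smul_right] using h2

lemma expand_inner' {e : ℕ → H2} (he : Orthonormal ℂ e) {w : H2}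
    (hw : ∀ z : H2, (∀ j, inner ℂ (e j) z = 0) → inner ℂ z w = 0) (y : H2) :
    HasSum (fun j => inner ℂ w (e j) * inner ℂ (e j) y) (inner ℂ w y) := by
  have h := (expand_inner he hw y).map (starRingEnd ℂ) Complex.continuous_conj
  simp only [Function.comp_def, map_mul, inner_conj_symm] at h
  exact h

lemma norm_le_of_hasSum {F : ℕ → ℂ} {a : ℂ} (h : HasSum F a) {B : ℝ}
    (hB : ∀ J : Finset ℕ, ‖∑ j ∈ J, F j‖ ≤ B) : ‖a‖ ≤ B :=
  le_of_tendsto h.norm (Filter.Eventually.of_forall hB)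

lemma quad {R P q : ℝ} (hR : 0 ≤ R) (hP : 0 ≤ P) (hq : 0 ≤ q)
    (h : R ≤ q * Real.sqrt P * Real.sqrt R) : R ≤ q ^ 2 * P := by
  have h1 := Real.mul_self_sqrt hR
  have h2 := Real.mul_self_sqrt hP
  rcases (Real.sqrt_nonneg R).eq_or_lt with h0 | hpos
  · rw [← h0, mul_zero] at h1
    rw [← h1]; positivity
  · have h3 : Real.sqrt R ≤ q * Real.sqrt P := by
      by_contra hcon
      push Not at hcon
      have := mul_lt_mul_of_pos_right hcon hpos
      linarith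
    calc R = Real.sqrt R * Real.sqrt R := h1.symm
      _ ≤ (q * Real.sqrt P) * (q * Real.sqrt P) := by gcongr
      _ = q ^ 2 * P := by rw [← h2]; ring_nf; rw [Real.sqrt_sq]; exact Real.sqrt_nonneg _

variable {s : ℕ → ℝ} {u : ℕ → ℂ} {T K : H2 →SL[starRingEnd ℂ] H2} {e f : ℕ → H2}

lemma K_zero_of_T_zero (hO : Ops u T K) {z : H2} (h : T z = 0) : K z = 0 := by
  apply lp.ext
  funext n
  rw [hO.hTK, h]
  rfl

lemma perp_f (hs : ∀ r, 0 < s r) (hO : Ops u T K) (hE : EigSys s T K e f) (k : ℕ) :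
    ∀ z : H2, (∀ j, inner ℂ (e j) z = 0) → inner ℂ z (f k) = 0 := by
  intro z hz
  have h1 := K_zero_of_T_zero hO (hE.hT0 z hz)
  obtain ⟨c, hc, hcf⟩ := hE.hKf k
  have h2 : inner ℂ z (K (f k)) = inner ℂ (f k) (K z) := hO.hKs (f k) z
  rw [h1, inner_zero_right, hcf, inner_smul_right] at h2
  have hc0 : c ≠ 0 := by
    intro h0
    rw [h0, norm_zero] at hc
    exact (hs (2 * k + 1)).ne hc
  exact (mul_eq_zero.mp h2).resolve_left hc0

lemma perp_K (hO : Ops u T K) (hE : EigSys s T K e f) (y : H2) :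
    ∀ z : H2, (∀ k, inner ℂ (f k) z = 0) → inner ℂ z (K y) = 0 := by
  intro z hz
  rw [hO.hKs y z, hE.hK0 z hz, inner_zero_right]

lemma perp_T (hO : Ops u T K) (hE : EigSys s T K e f) (y : H2) :
    ∀ z : H2, (∀ j, inner ℂ (e j) z = 0) → inner ℂ z (T y) = 0 := by
  intro z hz
  rw [hO.hTs y z, hE.hT0 z hz, inner_zero_right]

lemma norm_inner_T (hO : Ops u T K) (hE : EigSys s T K e f) (j : ℕ) (y : H2) :
    ‖inner ℂ (e j) (T y)‖ = s (2 * j) * ‖inner ℂ (e j) y‖ := by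
  obtain ⟨c, hc, hce⟩ := hE.hTe j
  rw [hO.hTs y (e j), hce, inner_smul_right, norm_mul, hc, norm_inner_symm]

lemma norm_inner_K (hO : Ops u T K) (hE : EigSys s T K e f) (k : ℕ) (y : H2) :
    ‖inner ℂ (f k) (K y)‖ = s (2 * k + 1) * ‖inner ℂ (f k) y‖ := by
  obtain ⟨c, hc, hce⟩ := hE.hKf k
  rw [hO.hKs y (f k), hce, inner_smul_right, norm_mul, hc, norm_inner_symm]

lemma hasSum_norm_sq (v : H2) : HasSum (fun n => ‖v n‖ ^ 2) (‖v‖ ^ 2) := by
  have h := lp.hasSum_norm (p := 2) (by norm_num) v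
  simpa using h

lemma norm_K_le (hO : Ops u T K) (v : H2) : ‖K v‖ ≤ ‖T v‖ := by
  have h1 := hasSum_norm_sq (K v)
  have h2 := (hasSum_nat_add_iff' 1).mpr (hasSum_norm_sq (T v))
  have h3 : (fun n => ‖(K v : ℕ → ℂ) n‖ ^ 2) = fun n => ‖(T v : ℕ → ℂ) (n + 1)‖ ^ 2 := by
    funext n
    rw [hO.hTK]
  rw [h3] at h1
  have h4 := h1.unique h2
  rw [Finset.sum_range_one] at h4
  have h5 : ‖K v‖ ^ 2 ≤ ‖T v‖ ^ 2 := by
    rw [h4]
    have : 0 ≤ ‖(T v : ℕ → ℂ) 0‖ ^ 2 := by positivity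
    linarith
  exact (pow_le_pow_iff_left₀ (norm_nonneg _) (norm_nonneg _) two_ne_zero).mp h5

lemma core_hyp (hO : Ops u T K) (hE : EigSys s T K e f) (J Kf : Finset ℕ) (x : ℕ → ℂ) :
    ∑ k ∈ Kf, s (2 * k + 1) ^ 2 * ‖inner ℂ (f k) (∑ j ∈ J, x j • e j)‖ ^ 2 ≤
      ∑ j ∈ J, s (2 * j) ^ 2 * ‖x j‖ ^ 2 := by
  set v : H2 := ∑ j ∈ J, x j • e j with hv
  have h1 : ∀ k, s (2 * k + 1) ^ 2 * ‖inner ℂ (f k) v‖ ^ 2 = ‖inner ℂ (f k) (K v)‖ ^ 2 := by
    intro k
    rw [norm_inner_K hO hE k v, mul_pow]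
  simp only [h1]
  refine (Orthonormal.sum_inner_products_le (K v) hE.hf).trans ?_
  refine (pow_le_pow_left₀ (norm_nonneg _) (norm_K_le hO v) 2).trans (le_of_eq ?_)
  choose c hc hce using hE.hTe
  have hTv : T v = ∑ j ∈ J, (conj (x j) * c j) • e j := by
    simp only [hv, map_sum, map_smulₛₗ, hce, smul_smul]
  rw [hTv]
  have h2 := hE.he.inner_sum (fun j => conj (x j) * c j) (fun j => conj (x j) * c j) J
  rw [inner_self_eq_norm_sq_to_K] at h2
  have h3 : (∑ j ∈ J, conj (conj (x j) * c j) * (conj (x j) * c j)) =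
      ((∑ j ∈ J, s (2 * j) ^ 2 * ‖x j‖ ^ 2 : ℝ) : ℂ) := by
    push_cast
    refine Finset.sum_congr rfl fun j _ => ?_
    rw [Complex.conj_mul', norm_mul, hc, RCLike.norm_conj]
    push_cast
    ring
  have h4 := h2.trans h3
  refine Complex.ofReal_injective ?_
  rw [Complex.ofReal_pow]
  exact h4

/-- the conclusion of CORE -/
def CoreC (s : ℕ → ℝ) (e f : ℕ → H2) (q : ℝ) : Prop :=
  ∀ (J K : Finset ℕ) (x y : ℕ → ℂ),
    ‖∑ j ∈ J, ∑ k ∈ K, (((s (2 * k + 1) / s (2 * j)) ^ (1 / 2 : ℝ) : ℝ) : ℂ) * x j *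
      conj (y k) * inner ℂ (f k) (e j)‖ ≤
      q * Real.sqrt (∑ j ∈ J, ‖x j‖ ^ 2) * Real.sqrt (∑ k ∈ K, ‖y k‖ ^ 2)

lemma ratio (hs : ∀ r, 0 < s r) (j k : ℕ) :
    ((s (2 * k + 1) / s (2 * j)) ^ (1 / 2 : ℝ) : ℝ) =
      Real.sqrt (s (2 * k + 1)) / Real.sqrt (s (2 * j)) := by
  rw [← Real.sqrt_eq_rpow, Real.sqrt_div (hs _).le]

lemma stepF {q : ℝ} (hq : 0 ≤ q) (hs : ∀ r, 0 < s r) (hO : Ops u T K) (hE : EigSys s T K e f)
    (hC : CoreC s e f q) {y : H2} {P : ℝ}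
    (hP : ∀ J : Finset ℕ, ∑ j ∈ J, s (2 * j) * ‖inner ℂ (e j) y‖ ^ 2 ≤ P) (Kf : Finset ℕ) :
    ∑ k ∈ Kf, s (2 * k + 1) * ‖inner ℂ (f k) y‖ ^ 2 ≤ q ^ 2 * P := by
  set x : ℕ → ℂ := fun j => (Real.sqrt (s (2 * j)) : ℂ) * inner ℂ (e j) y with hx
  set z : ℕ → ℂ := fun k => (Real.sqrt (s (2 * k + 1)) : ℂ) * inner ℂ (f k) y with hz
  have hxn : ∀ j, ‖x j‖ ^ 2 = s (2 * j) * ‖inner ℂ (e j) y‖ ^ 2 := by
    intro j
    rw [hx]
    simp only
    rw [norm_mul, mul_pow, Complex.norm_real, Real.norm_eq_abs, abs_of_nonneg (Real.sqrt_nonneg _),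
      Real.sq_sqrt (hs _).le]
  have hzn : ∀ k, ‖z k‖ ^ 2 = s (2 * k + 1) * ‖inner ℂ (f k) y‖ ^ 2 := by
    intro k
    rw [hz]
    simp only
    rw [norm_mul, mul_pow, Complex.norm_real, Real.norm_eq_abs, abs_of_nonneg (Real.sqrt_nonneg _),
      Real.sq_sqrt (hs _).le]
  set R : ℝ := ∑ k ∈ Kf, ‖z k‖ ^ 2 with hR
  have hReq : ∑ k ∈ Kf, s (2 * k + 1) * ‖inner ℂ (f k) y‖ ^ 2 = R :=
    Finset.sum_congr rfl fun k _ => (hzn k).symm
  rw [hReq]
  have hR0 : 0 ≤ R := Finset.sum_nonneg fun k _ => by positivity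
  have hP0 : 0 ≤ P := by simpa using hP ∅
  have hsum : HasSum (fun j => ∑ k ∈ Kf, (((s (2 * k + 1) / s (2 * j)) ^ (1 / 2 : ℝ) : ℝ) : ℂ) *
      x j * conj (z k) * inner ℂ (f k) (e j)) (R : ℂ) := by
    have h1 : ∀ k ∈ Kf, HasSum (fun j => (((s (2 * k + 1) / s (2 * j)) ^ (1 / 2 : ℝ) : ℝ) : ℂ) *
      x j * conj (z k) * inner ℂ (f k) (e j)) (((‖z k‖ ^ 2 : ℝ)) : ℂ) := by
      intro k _
      have h2 := (expand_inner' hE.he (perp_f hs hO hE k) y).mul_left
        (conj (z k) * (Real.sqrt (s (2 * k + 1)) : ℂ))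
      convert! h2 using 1
      · funext j
        rw [ratio hs j k, hx]
        have h3 : (Real.sqrt (s (2 * j)) : ℂ) ≠ 0 := by
          exact_mod_cast (Real.sqrt_pos.mpr (hs _)).ne'
        push_cast
        field_simp
      · have h3 : conj (z k) * (Real.sqrt (s (2 * k + 1)) : ℂ) * inner ℂ (f k) y
            = conj (z k) * z k := by rw [hz]; ring
        rw [h3, Complex.conj_mul']
        push_cast
        rfl
    have h4 := hasSum_sum h1
    rw [← Complex.ofReal_sum] at h4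
    exact h4
  have hle : ‖(R : ℂ)‖ ≤ q * Real.sqrt P * Real.sqrt R := by
    refine norm_le_of_hasSum hsum fun J => ?_
    refine (hC J Kf x z).trans ?_
    have h5 : ∑ j ∈ J, ‖x j‖ ^ 2 ≤ P := by
      rw [Finset.sum_congr rfl fun j _ => hxn j]; exact hP J
    gcongr
  rw [Complex.norm_real, Real.norm_eq_abs, abs_of_nonneg hR0] at hle
  exact quad hR0 hP0 hq hle

lemma stepE {q : ℝ} (hq : 0 ≤ q) (hs : ∀ r, 0 < s r) (hO : Ops u T K) (hE : EigSys s T K e f)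
    (hC : CoreC s e f q) {y : H2} {Q : ℝ}
    (hQ : ∀ Kf : Finset ℕ, ∑ k ∈ Kf, s (2 * k + 1) * ‖inner ℂ (f k) y‖ ^ 2 ≤ Q) (J : Finset ℕ) :
    ∑ j ∈ J, (s (2 * j))⁻¹ * ‖inner ℂ (e j) (K y)‖ ^ 2 ≤ q ^ 2 * Q := by
  set x : ℕ → ℂ := fun j => ((Real.sqrt (s (2 * j)))⁻¹ : ℂ) * inner ℂ (e j) (K y) with hx
  set z : ℕ → ℂ := fun k => ((Real.sqrt (s (2 * k + 1)))⁻¹ : ℂ) * inner ℂ (f k) (K y) with hz
  have hxn : ∀ j, ‖x j‖ ^ 2 = (s (2 * j))⁻¹ * ‖inner ℂ (e j) (K y)‖ ^ 2 := by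
    intro j
    rw [hx]
    simp only
    rw [norm_mul, mul_pow, norm_inv, Complex.norm_real, Real.norm_eq_abs,
      abs_of_nonneg (Real.sqrt_nonneg _), inv_pow, Real.sq_sqrt (hs _).le]
  have hzn : ∀ k, ‖z k‖ ^ 2 = s (2 * k + 1) * ‖inner ℂ (f k) y‖ ^ 2 := by
    intro k
    rw [hz]
    simp only
    rw [norm_mul, mul_pow, norm_inv, Complex.norm_real, Real.norm_eq_abs,
      abs_of_nonneg (Real.sqrt_nonneg _), inv_pow, Real.sq_sqrt (hs _).le, norm_inner_K hO hE k y]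
    have := (hs (2 * k + 1)).ne'
    field_simp
  set R : ℝ := ∑ j ∈ J, ‖x j‖ ^ 2 with hR
  have hReq : ∑ j ∈ J, (s (2 * j))⁻¹ * ‖inner ℂ (e j) (K y)‖ ^ 2 = R :=
    Finset.sum_congr rfl fun k _ => (hxn k).symm
  rw [hReq]
  have hR0 : 0 ≤ R := Finset.sum_nonneg fun k _ => by positivity
  have hQ0 : 0 ≤ Q := by simpa using hQ ∅
  have hsum : HasSum (fun k => ∑ j ∈ J, (((s (2 * k + 1) / s (2 * j)) ^ (1 / 2 : ℝ) : ℝ) : ℂ) *
      x j * conj (z k) * inner ℂ (f k) (e j)) (R : ℂ) := by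
    have h1 : ∀ j ∈ J, HasSum (fun k => (((s (2 * k + 1) / s (2 * j)) ^ (1 / 2 : ℝ) : ℝ) : ℂ) *
      x j * conj (z k) * inner ℂ (f k) (e j)) (((‖x j‖ ^ 2 : ℝ)) : ℂ) := by
      intro j _
      have h2 := (expand_inner' hE.hf (perp_K hO hE y) (e j)).mul_left
        (x j * ((Real.sqrt (s (2 * j)))⁻¹ : ℂ))
      convert! h2 using 1
      · funext k
        rw [ratio hs j k]
        have h3 : (Real.sqrt (s (2 * j)) : ℂ) ≠ 0 := by
          exact_mod_cast (Real.sqrt_pos.mpr (hs _)).ne'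
        have h4 : (Real.sqrt (s (2 * k + 1)) : ℂ) ≠ 0 := by
          exact_mod_cast (Real.sqrt_pos.mpr (hs _)).ne'
        have h5 : conj (z k) = ((Real.sqrt (s (2 * k + 1)))⁻¹ : ℂ) * inner ℂ (K y) (f k) := by
          rw [hz]
          simp only [map_mul, map_inv₀, Complex.conj_ofReal, inner_conj_symm]
        rw [h5]
        push_cast
        field_simp
      · have h3 : x j * ((Real.sqrt (s (2 * j)))⁻¹ : ℂ) * inner ℂ (K y) (e j)
            = x j * conj (x j) := by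
          rw [hx]
          simp only [map_mul, map_inv₀, Complex.conj_ofReal, inner_conj_symm]
          ring
        rw [h3, Complex.mul_conj']
        push_cast
        rfl
    have h4 := hasSum_sum h1
    rw [← Complex.ofReal_sum] at h4
    exact h4
  have hle : ‖(R : ℂ)‖ ≤ q * Real.sqrt Q * Real.sqrt R := by
    refine norm_le_of_hasSum hsum fun Kf => ?_
    rw [Finset.sum_comm]
    refine (hC J Kf x z).trans ?_
    have h5 : ∑ k ∈ Kf, ‖z k‖ ^ 2 ≤ Q := by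
      rw [Finset.sum_congr rfl fun j _ => hzn j]; exact hQ Kf
    rw [mul_assoc, mul_assoc, mul_comm (Real.sqrt Q)]
    gcongr
  rw [Complex.norm_real, Real.norm_eq_abs, abs_of_nonneg hR0] at hle
  exact quad hR0 hQ0 hq hle

/-- unit vectors -/
noncomputable def dvec (n : ℕ) : H2 := lp.single 2 n (1 : ℂ)

lemma dvec_apply (n m : ℕ) : (dvec n : ℕ → ℂ) m = if m = n then 1 else 0 := by
  unfold dvec
  rw [lp.single_apply, Pi.single_apply]

lemma shift_dvec (n : ℕ) : shift (dvec n : ℕ → ℂ) = (dvec (n + 1) : ℕ → ℂ) := by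
  funext m
  cases m with
  | zero => rw [dvec_apply]; simp [shift]
  | succ m =>
    rw [dvec_apply]
    show (dvec n : ℕ → ℂ) m = _
    rw [dvec_apply]
    simp

lemma K_dvec (hO : Ops u T K) (n : ℕ) : K (dvec n) = T (dvec (n + 1)) := by
  apply lp.ext
  funext m
  rw [hO.hK, hO.hT, shift_dvec]

lemma T_dvec (hO : Ops u T K) (n : ℕ) : (T (dvec n) : ℕ → ℂ) 0 = u n := by
  rw [hO.hT]
  unfold hankel
  rw [tsum_eq_single n]
  · rw [dvec_apply]; simp
  · intro m hm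
    rw [dvec_apply, if_neg hm]; simp

lemma norm_dvec (n : ℕ) : ‖dvec n‖ = 1 := by
  unfold dvec
  rw [lp.norm_single (by norm_num), norm_one]

lemma inner_dvec (n : ℕ) (v : H2) : inner ℂ (dvec n) v = (v : ℕ → ℂ) n := by
  unfold dvec
  rw [lp.inner_single_left]
  simp

lemma s_le (hs : ∀ r, 0 < s r) {δ : ℝ} (hδ1 : δ < 1) (hsd : ∀ r, s (r + 1) ≤ δ * s r) (r : ℕ) :
    s r ≤ s 0 := by
  induction r with
  | zero => exact le_rfl
  | succ r ih =>
    have h1 := hsd r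
    have h2 := hs r
    nlinarith

end CoefAux

open CoefAux in
theorem coef (h : StCore) : StCoef := by
  intro δ hδ hδ1
  obtain ⟨q, hq0, hq1, hcore⟩ := h δ hδ hδ1
  refine ⟨q ^ 2, by positivity, by nlinarith, ?_⟩
  intro s hs hsd u T K hO e f hE n
  have hC : CoreC s e f q := hcore H2 s hs hsd e f hE.he hE.hf (core_hyp hO hE)
  have hbound : ∀ n : ℕ, ∀ J : Finset ℕ,
      ∑ j ∈ J, s (2 * j) * ‖inner ℂ (e j) (dvec n)‖ ^ 2 ≤ (q ^ 4) ^ n * s 0 := by
    intro n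
    induction n with
    | zero =>
      intro J
      rw [pow_zero, one_mul]
      calc ∑ j ∈ J, s (2 * j) * ‖inner ℂ (e j) (dvec 0)‖ ^ 2
          ≤ ∑ j ∈ J, s 0 * ‖inner ℂ (e j) (dvec 0)‖ ^ 2 := by
            refine Finset.sum_le_sum fun j _ => ?_
            have := s_le hs hδ1 hsd (2 * j)
            gcongr
        _ = s 0 * ∑ j ∈ J, ‖inner ℂ (e j) (dvec 0)‖ ^ 2 := by rw [Finset.mul_sum]
        _ ≤ s 0 * 1 := by
            have h1 := Orthonormal.sum_inner_products_le (s := J) (dvec 0) hE.he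
            rw [norm_dvec, one_pow] at h1
            exact mul_le_mul_of_nonneg_left h1 (hs 0).le
        _ = s 0 := mul_one _
    | succ n ih =>
      intro J
      have h1 := stepF hq0.le hs hO hE hC ih
      have h2 := stepE hq0.le hs hO hE hC h1 J
      rw [K_dvec hO n] at h2
      have h3 : ∑ j ∈ J, (s (2 * j))⁻¹ * ‖inner ℂ (e j) (T (dvec (n + 1)))‖ ^ 2 =
          ∑ j ∈ J, s (2 * j) * ‖inner ℂ (e j) (dvec (n + 1))‖ ^ 2 := by
        refine Finset.sum_congr rfl fun j _ => ?_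
        rw [norm_inner_T hO hE]
        have := (hs (2 * j)).ne'
        field_simp
      rw [h3] at h2
      calc _ ≤ q ^ 2 * (q ^ 2 * ((q ^ 4) ^ n * s 0)) := h2
        _ = (q ^ 4) ^ (n + 1) * s 0 := by ring
  have hsum := expand_inner hE.he (perp_T hO hE (dvec n)) (dvec 0)
  rw [inner_dvec, T_dvec hO] at hsum
  refine norm_le_of_hasSum hsum fun J => ?_
  refine (norm_sum_le _ _).trans ?_
  have h1 : ∀ j ∈ J, ‖inner ℂ (e j) (T (dvec n)) * inner ℂ (dvec 0) (e j)‖ =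
      (Real.sqrt (s (2 * j)) * ‖inner ℂ (e j) (dvec n)‖) *
        (Real.sqrt (s (2 * j)) * ‖inner ℂ (e j) (dvec 0)‖) := by
    intro j _
    rw [norm_mul, norm_inner_T hO hE, norm_inner_symm (dvec 0) (e j)]
    have := Real.mul_self_sqrt (hs (2 * j)).le
    calc _ = (Real.sqrt (s (2 * j)) * Real.sqrt (s (2 * j))) * ‖inner ℂ (e j) (dvec n)‖ *
          ‖inner ℂ (e j) (dvec 0)‖ := by rw [this]
      _ = _ := by ring
  rw [Finset.sum_congr rfl h1]
  refine (Real.sum_mul_le_sqrt_mul_sqrt J _ _).trans ?_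
  have h2 : ∀ m, ∑ j ∈ J, (Real.sqrt (s (2 * j)) * ‖inner ℂ (e j) (dvec m)‖) ^ 2 ≤
      (q ^ 4) ^ m * s 0 := by
    intro m
    refine le_trans (le_of_eq ?_) (hbound m J)
    refine Finset.sum_congr rfl fun j _ => ?_
    rw [mul_pow, Real.sq_sqrt (hs _).le]
  calc _ ≤ Real.sqrt ((q ^ 4) ^ n * s 0) * Real.sqrt ((q ^ 4) ^ 0 * s 0) := by
        gcongr
        · exact h2 n
        · exact h2 0
    _ = s 0 * (q ^ 2) ^ n := by
        rw [pow_zero, one_mul, ← Real.sqrt_mul (by have := hs 0; positivity)]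
        have : (q ^ 4) ^ n * s 0 * s 0 = (s 0 * (q ^ 2) ^ n) ^ 2 := by ring
        rw [this, Real.sqrt_sq (by have := hs 0; positivity)]

end Pool.Agent.R286.HT
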