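import Pool.Agent.R286.HT.Stm

set_option autoImplicit false

open ComplexConjugate Finset Complex

namespace Pool.Agent.R286.HT.CoreAux

variable {E : Type} [NormedAddCommGroup E] [InnerProductSpace ℂ E]

/-- logarithmic differences -/
noncomputable def om (s : ℕ → ℝ) (j k : ℕ) : ℝ := Real.log (s (2 * k + 1)) - Real.log (s (2 * j))

/-- the exponential sum -/
noncomputable def G (s : ℕ → ℝ) (e f : ℕ → E) (J K : Finset ℕ) (x y : ℕ → ℂ) (z : ℂ) : ℂ :=
  ∑ j ∈ J, ∑ k ∈ K, cexp (z * (om s j k : ℂ)) * x j * conj (y k) * inner ℂ (f k) (e j)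

lemma G_eq (s : ℕ → ℝ) (e f : ℕ → E) (J K : Finset ℕ) (x y : ℕ → ℂ) (z : ℂ) :
    G s e f J K x y z = ∑ k ∈ K, (cexp (z * (Real.log (s (2 * k + 1)) : ℂ)) * conj (y k)) *
      inner ℂ (f k) (∑ j ∈ J, (cexp (-(z * (Real.log (s (2 * j)) : ℂ))) * x j) • e j) := by
  unfold G
  rw [Finset.sum_comm]
  refine Finset.sum_congr rfl fun k _ => ?_
  rw [inner_sum, Finset.mul_sum]
  refine Finset.sum_congr rfl fun j _ => ?_
  rw [inner_smul_right]
  have : cexp (z * (om s j k : ℂ)) = cexp (z * (Real.log (s (2 * k + 1)) : ℂ)) *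
      cexp (-(z * (Real.log (s (2 * j)) : ℂ))) := by
    rw [← Complex.exp_add]
    congr 1
    unfold om
    push_cast
    ring
  rw [this]
  ring

lemma norm_cexp_mul_real (z : ℂ) (t : ℝ) : ‖cexp (z * (t : ℂ))‖ = Real.exp (z.re * t) := by
  rw [Complex.norm_exp]
  simp

lemma norm_sum_cs (K : Finset ℕ) (a b : ℕ → ℂ) (A : ∑ k ∈ K, ‖a k‖ ^ 2 ≤ 1)
    (B : ∑ k ∈ K, ‖b k‖ ^ 2 ≤ 1) : ‖∑ k ∈ K, a k * b k‖ ≤ 1 := by
  calc ‖∑ k ∈ K, a k * b k‖ ≤ ∑ k ∈ K, ‖a k * b k‖ := norm_sum_le _ _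
    _ ≤ ∑ k ∈ K, (‖a k‖ ^ 2 / 2 + ‖b k‖ ^ 2 / 2) := by
        refine Finset.sum_le_sum fun k _ => ?_
        rw [norm_mul]
        nlinarith [sq_nonneg (‖a k‖ - ‖b k‖)]
    _ = (∑ k ∈ K, ‖a k‖ ^ 2) / 2 + (∑ k ∈ K, ‖b k‖ ^ 2) / 2 := by
        rw [Finset.sum_add_distrib, Finset.sum_div, Finset.sum_div]
    _ ≤ 1 := by linarith

lemma norm_sq_sum (e : ℕ → E) (he : Orthonormal ℂ e) (J : Finset ℕ) (x : ℕ → ℂ) :
    ‖∑ j ∈ J, x j • e j‖ ^ 2 = ∑ j ∈ J, ‖x j‖ ^ 2 := by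
  have h := he.inner_sum x x J
  rw [inner_self_eq_norm_sq_to_K] at h
  have h2 : ((‖∑ j ∈ J, x j • e j‖ ^ 2 : ℝ) : ℂ) = ((∑ j ∈ J, ‖x j‖ ^ 2 : ℝ) : ℂ) := by
    push_cast
    refine Eq.trans (by simp) (h.trans ?_)
    refine Finset.sum_congr rfl fun j _ => ?_
    rw [Complex.conj_mul']
  exact_mod_cast h2

/-- bound on `Re z = 0` -/
lemma G_re0 (s : ℕ → ℝ) (e f : ℕ → E) (he : Orthonormal ℂ e) (hf : Orthonormal ℂ f)
    (J K : Finset ℕ) (x y : ℕ → ℂ) (hx : ∑ j ∈ J, ‖x j‖ ^ 2 ≤ 1) (hy : ∑ k ∈ K, ‖y k‖ ^ 2 ≤ 1)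
    (z : ℂ) (hz : z.re = 0) : ‖G s e f J K x y z‖ ≤ 1 := by
  rw [G_eq]
  apply norm_sum_cs
  · refine le_trans (le_of_eq ?_) hy
    refine Finset.sum_congr rfl fun k _ => ?_
    rw [norm_mul, norm_cexp_mul_real, hz]
    simp
  · refine le_trans (hf.sum_inner_products_le _) ?_
    rw [norm_sq_sum e he]
    refine le_trans (le_of_eq ?_) hx
    refine Finset.sum_congr rfl fun k _ => ?_
    rw [norm_mul, ← neg_mul, norm_cexp_mul_real, Complex.neg_re, hz]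
    simp

/-- bound on `Re z = 1` -/
lemma G_re1 (s : ℕ → ℝ) (hs : ∀ r, 0 < s r) (e f : ℕ → E)
    (hyp : ∀ (J K : Finset ℕ) (x : ℕ → ℂ),
        ∑ k ∈ K, s (2 * k + 1) ^ 2 * ‖inner ℂ (f k) (∑ j ∈ J, x j • e j)‖ ^ 2 ≤
          ∑ j ∈ J, s (2 * j) ^ 2 * ‖x j‖ ^ 2)
    (J K : Finset ℕ) (x y : ℕ → ℂ) (hx : ∑ j ∈ J, ‖x j‖ ^ 2 ≤ 1) (hy : ∑ k ∈ K, ‖y k‖ ^ 2 ≤ 1)
    (z : ℂ) (hz : z.re = 1) : ‖G s e f J K x y z‖ ≤ 1 := by
  rw [G_eq]
  have e1 : ∀ k, ‖cexp (z * (Real.log (s (2 * k + 1)) : ℂ))‖ = s (2 * k + 1) := by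
    intro k
    rw [norm_cexp_mul_real, hz, one_mul, Real.exp_log (hs _)]
  have e2 : ∀ j, ‖cexp (-(z * (Real.log (s (2 * j)) : ℂ)))‖ = (s (2 * j))⁻¹ := by
    intro j
    rw [← neg_mul, norm_cexp_mul_real, Complex.neg_re, hz, neg_one_mul, Real.exp_neg,
      Real.exp_log (hs _)]
  set V := ∑ j ∈ J, (cexp (-(z * (Real.log (s (2 * j)) : ℂ))) * x j) • e j with hV
  have h1 : ∑ k ∈ K, ‖((s (2 * k + 1) : ℝ) : ℂ) * inner ℂ (f k) V‖ ^ 2 ≤ 1 := by
    refine le_trans (le_of_eq ?_) (le_trans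
      (hyp J K (fun j => cexp (-(z * (Real.log (s (2 * j)) : ℂ))) * x j)) ?_)
    · refine Finset.sum_congr rfl fun k _ => ?_
      rw [norm_mul, mul_pow]
      simp [hV]
    · refine le_trans (le_of_eq ?_) hx
      refine Finset.sum_congr rfl fun j _ => ?_
      rw [norm_mul, e2, mul_pow, ← mul_assoc, ← mul_pow, mul_inv_cancel₀ (hs _).ne', one_pow,
        one_mul]
  have h2 : ∑ k ∈ K, ‖(cexp (z * (Real.log (s (2 * k + 1)) : ℂ)) * conj (y k)) *
      ((s (2 * k + 1) : ℝ) : ℂ)⁻¹‖ ^ 2 ≤ 1 := by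
    refine le_trans (le_of_eq ?_) hy
    refine Finset.sum_congr rfl fun k _ => ?_
    rw [norm_mul, norm_mul, e1, norm_inv, Complex.norm_real, Real.norm_eq_abs,
      abs_of_pos (hs _), RCLike.norm_conj]
    congr 1
    field_simp [(hs (2 * k + 1)).ne']
  have := norm_sum_cs K _ _ h2 h1
  refine le_trans (le_of_eq ?_) this
  congr 1
  refine Finset.sum_congr rfl fun k _ => ?_
  have : ((s (2 * k + 1) : ℝ) : ℂ) ≠ 0 := by exact_mod_cast (hs _).ne'
  field_simp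

lemma G_diff (s : ℕ → ℝ) (e f : ℕ → E) (J K : Finset ℕ) (x y : ℕ → ℂ) :
    Differentiable ℂ (G s e f J K x y) := by
  unfold G
  fun_prop

lemma G_strip (s : ℕ → ℝ) (hs : ∀ r, 0 < s r) (e f : ℕ → E) (he : Orthonormal ℂ e)
    (hf : Orthonormal ℂ f)
    (hyp : ∀ (J K : Finset ℕ) (x : ℕ → ℂ),
        ∑ k ∈ K, s (2 * k + 1) ^ 2 * ‖inner ℂ (f k) (∑ j ∈ J, x j • e j)‖ ^ 2 ≤
          ∑ j ∈ J, s (2 * j) ^ 2 * ‖x j‖ ^ 2)
    (J K : Finset ℕ) (x y : ℕ → ℂ) (hx : ∑ j ∈ J, ‖x j‖ ^ 2 ≤ 1) (hy : ∑ k ∈ K, ‖y k‖ ^ 2 ≤ 1)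
    (z : ℂ) (hz0 : 0 ≤ z.re) (hz1 : z.re ≤ 1) : ‖G s e f J K x y z‖ ≤ 1 := by
  refine PhragmenLindelof.vertical_strip (a := 0) (b := 1) (f := G s e f J K x y)
    (G_diff s e f J K x y).diffContOnCl ?_ (G_re0 s e f he hf J K x y hx hy)
    (G_re1 s hs e f hyp J K x y hx hy) hz0 hz1
  refine ⟨0, by simp [Real.pi_pos], 0, ?_⟩
  refine Asymptotics.IsBigO.of_bound (∑ j ∈ J, ∑ k ∈ K, Real.exp |om s j k| *
    ‖x j * conj (y k) * inner ℂ (f k) (e j)‖) ?_
  refine Filter.eventually_inf_principal.2 (Filter.Eventually.of_forall fun w hw => ?_)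
  have hw0 : 0 < w.re := hw.1
  have hw1 : w.re < 1 := hw.2
  simp only [zero_mul, Real.exp_zero, norm_one, mul_one]
  unfold G
  refine (norm_sum_le _ _).trans (Finset.sum_le_sum fun j _ => (norm_sum_le _ _).trans
    (Finset.sum_le_sum fun k _ => ?_))
  rw [mul_assoc, mul_assoc, norm_mul, norm_cexp_mul_real, mul_assoc]
  refine mul_le_mul_of_nonneg_right (Real.exp_le_exp.2 ?_) (norm_nonneg _)
  calc w.re * om s j k ≤ |w.re * om s j k| := le_abs_self _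
    _ = w.re * |om s j k| := by rw [abs_mul, abs_of_pos hw0]
    _ ≤ 1 * |om s j k| := mul_le_mul_of_nonneg_right hw1.le (abs_nonneg _)
    _ = |om s j k| := one_mul _

lemma decay (s : ℕ → ℝ) (hs : ∀ r, 0 < s r) (δ : ℝ) (hδ : 0 < δ)
    (hd : ∀ r, s (r + 1) ≤ δ * s r) (r m : ℕ) :
    Real.log (s (r + m)) ≤ Real.log (s r) - m * Real.log (1 / δ) := by
  induction m with
  | zero => simp
  | succ m ih =>
    have h1 : Real.log (s (r + (m + 1))) ≤ Real.log (δ * s (r + m)) :=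
      Real.log_le_log (hs _) (by rw [← add_assoc]; exact hd _)
    rw [Real.log_mul hδ.ne' (hs _).ne'] at h1
    have h2 : Real.log (1 / δ) = - Real.log δ := by rw [one_div, Real.log_inv]
    rw [h2] at ih ⊢
    push_cast
    linarith

/-- natural distance -/
def dist' (j k : ℕ) : ℕ := (j - k) + (k - j)

lemma om_ge (s : ℕ → ℝ) (hs : ∀ r, 0 < s r) (δ : ℝ) (hδ : 0 < δ) (hδ1 : δ < 1)
    (hd : ∀ r, s (r + 1) ≤ δ * s r) (j k : ℕ) :
    Real.log (1 / δ) ≤ |om s j k| ∧ (dist' j k : ℝ) * Real.log (1 / δ) ≤ |om s j k| := by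
  have hL : 0 < Real.log (1 / δ) := Real.log_pos (by rw [lt_div_iff₀ hδ]; linarith)
  rcases le_or_gt j k with h | h
  · obtain ⟨m, rfl⟩ := Nat.exists_eq_add_of_le h
    have := decay s hs δ hδ hd (2 * j) (2 * m + 1)
    have e1 : 2 * j + (2 * m + 1) = 2 * (j + m) + 1 := by ring
    rw [e1] at this
    have hd' : dist' j (j + m) = m := by unfold dist'; omega
    rw [hd']
    have h3 : (2 * (m : ℝ) + 1) * Real.log (1 / δ) ≤ |om s j (j + m)| := by
      refine le_trans ?_ (neg_le_abs _)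
      unfold om
      push_cast at this
      linarith
    have hm : (0 : ℝ) ≤ m := Nat.cast_nonneg m
    have hmL : 0 ≤ (m : ℝ) * Real.log (1 / δ) := by positivity
    constructor <;> nlinarith
  · obtain ⟨m, rfl⟩ := Nat.exists_eq_add_of_lt h
    have := decay s hs δ hδ hd (2 * k + 1) (2 * m + 1)
    have e1 : 2 * k + 1 + (2 * m + 1) = 2 * (k + m + 1) := by ring
    rw [e1] at this
    have hd' : dist' (k + m + 1) k = m + 1 := by unfold dist'; omega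
    rw [hd']
    have h3 : (2 * (m : ℝ) + 1) * Real.log (1 / δ) ≤ |om s (k + m + 1) k| := by
      refine le_trans ?_ (le_abs_self _)
      unfold om
      push_cast at this
      linarith
    have hm : (0 : ℝ) ≤ m := Nat.cast_nonneg m
    have hmL : 0 ≤ (m : ℝ) * Real.log (1 / δ) := by positivity
    push_cast
    constructor <;> nlinarith

lemma entry (s : ℕ → ℝ) (hs : ∀ r, 0 < s r) (e f : ℕ → E) (he : Orthonormal ℂ e)
    (hf : Orthonormal ℂ f)
    (hyp : ∀ (J K : Finset ℕ) (x : ℕ → ℂ),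
        ∑ k ∈ K, s (2 * k + 1) ^ 2 * ‖inner ℂ (f k) (∑ j ∈ J, x j • e j)‖ ^ 2 ≤
          ∑ j ∈ J, s (2 * j) ^ 2 * ‖x j‖ ^ 2) (j k : ℕ) :
    Real.exp (om s j k / 2) * ‖inner ℂ (f k) (e j)‖ ≤ Real.exp (-|om s j k| / 2) := by
  rcases le_or_gt (om s j k) 0 with h | h
  · rw [abs_of_nonpos h, neg_neg]
    have : ‖inner ℂ (f k) (e j)‖ ≤ 1 := by
      refine (norm_inner_le_norm _ _).trans ?_
      rw [hf.1 k, he.1 j, one_mul]
    nlinarith [Real.exp_pos (om s j k / 2)]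
  · have h1 := hyp {j} {k} (fun _ => 1)
    simp only [Finset.sum_singleton, one_smul, norm_one, one_pow, mul_one] at h1
    rw [← mul_pow] at h1
    have h2 : s (2 * k + 1) * ‖inner ℂ (f k) (e j)‖ ≤ s (2 * j) :=
      le_of_sq_le_sq h1 (hs _).le
    have h3 : ‖inner ℂ (f k) (e j)‖ ≤ Real.exp (-om s j k) := by
      unfold om
      rw [neg_sub, Real.exp_sub, Real.exp_log (hs _), Real.exp_log (hs _), le_div_iff₀ (hs _)]
      linarith
    rw [abs_of_pos h]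
    calc Real.exp (om s j k / 2) * ‖inner ℂ (f k) (e j)‖ ≤
        Real.exp (om s j k / 2) * Real.exp (-om s j k) :=
          mul_le_mul_of_nonneg_left h3 (Real.exp_pos _).le
      _ = Real.exp (-om s j k / 2) := by rw [← Real.exp_add]; congr 1; ring

/-- geometric sums of unimodular numbers -/
lemma geom_bound (N : ℕ) (t : ℝ) (ht : t ≠ 0) (ht' : |t| ≤ Real.pi) :
    ‖∑ n ∈ range N, cexp ((n : ℂ) * ((t : ℂ) * I))‖ ≤ Real.pi / |t| := by
  have h0 : cexp ((t : ℂ) * I) ≠ 1 := by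
    intro h
    rw [Complex.exp_eq_one_iff] at h
    obtain ⟨n, hn⟩ := h
    have : (t : ℂ) = n * (2 * Real.pi) := by
      have : (t : ℂ) * I = (n * (2 * Real.pi)) * I := by rw [hn]; ring
      exact mul_right_cancel₀ I_ne_zero this
    have h2 : t = n * (2 * Real.pi) := by exact_mod_cast this
    have hn0 : n ≠ 0 := by
      rintro rfl
      simp at h2
      exact ht h2
    have h3 : (1 : ℝ) ≤ |(n : ℝ)| := by exact_mod_cast Int.one_le_abs hn0
    rw [h2, abs_mul, abs_of_pos (by positivity : (0 : ℝ) < 2 * Real.pi)] at ht'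
    nlinarith [Real.pi_pos]
  have h1 : ∑ n ∈ range N, cexp ((n : ℂ) * ((t : ℂ) * I)) =
      (cexp ((t : ℂ) * I) ^ N - 1) / (cexp ((t : ℂ) * I) - 1) := by
    rw [← geom_sum_eq h0]
    refine Finset.sum_congr rfl fun n _ => ?_
    rw [← Complex.exp_nat_mul]
  rw [h1, norm_div]
  have h2 : ‖cexp ((t : ℂ) * I) ^ N - 1‖ ≤ 2 := by
    refine (norm_sub_le _ _).trans ?_
    rw [norm_pow, Complex.norm_exp_ofReal_mul_I]
    norm_num
  have h3 : 2 * |t| / Real.pi ≤ ‖cexp ((t : ℂ) * I) - 1‖ := by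
    rw [mul_comm (t : ℂ) I, Complex.norm_exp_I_mul_ofReal_sub_one]
    rw [Real.norm_eq_abs, abs_mul, abs_of_pos (by norm_num : (0 : ℝ) < 2)]
    have h4 : 2 / Real.pi * |t / 2| ≤ |Real.sin (t / 2)| := by
      have := Real.mul_le_sin (x := |t / 2|) (abs_nonneg _) (by
        rw [abs_div, abs_of_pos (by norm_num : (0 : ℝ) < 2)]; linarith)
      refine this.trans ?_
      rcases abs_cases (t / 2) with ⟨h, _⟩ | ⟨h, _⟩
      · rw [h]; exact le_abs_self _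
      · rw [h, Real.sin_neg]; exact neg_le_abs _
    rw [abs_div, abs_of_pos (by norm_num : (0 : ℝ) < 2)] at h4
    calc 2 * |t| / Real.pi = 2 * (2 / Real.pi * (|t| / 2)) := by ring
      _ ≤ 2 * |Real.sin (t / 2)| := by linarith
  have ht0 : 0 < |t| := abs_pos.2 ht
  have h5 : 0 < 2 * |t| / Real.pi := by positivity
  calc ‖cexp ((t : ℂ) * I) ^ N - 1‖ / ‖cexp ((t : ℂ) * I) - 1‖ ≤ 2 / (2 * |t| / Real.pi) :=
        div_le_div₀ (by norm_num) h2 h5 h3
    _ = Real.pi / |t| := by field_simp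

/-- trivial bound -/
lemma geom_triv (N : ℕ) (t : ℝ) :
    ‖∑ n ∈ range N, cexp ((n : ℂ) * ((t : ℂ) * I))‖ ≤ N := by
  refine (norm_sum_le _ _).trans ?_
  refine (Finset.sum_le_sum fun n _ => (?_ : _ ≤ (1 : ℝ))).trans (by simp)
  have : (n : ℂ) * ((t : ℂ) * I) = ((n * t : ℝ) : ℂ) * I := by push_cast; ring
  rw [this, Complex.norm_exp_ofReal_mul_I]

/-- one entry of the average -/
lemma entry_avg (s : ℕ → ℝ) (hs : ∀ r, 0 < s r) (δ : ℝ) (hδ : 0 < δ) (hδ1 : δ < 1)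
    (hd : ∀ r, s (r + 1) ≤ δ * s r) (e f : ℕ → E) (he : Orthonormal ℂ e)
    (hf : Orthonormal ℂ f)
    (hyp : ∀ (J K : Finset ℕ) (x : ℕ → ℂ),
        ∑ k ∈ K, s (2 * k + 1) ^ 2 * ‖inner ℂ (f k) (∑ j ∈ J, x j • e j)‖ ^ 2 ≤
          ∑ j ∈ J, s (2 * j) ^ 2 * ‖x j‖ ^ 2) (θ : ℝ) (hθ : 0 < θ) (N : ℕ) (hN : 0 < N) (j k : ℕ) :
    Real.exp (om s j k / 2) * ‖inner ℂ (f k) (e j)‖ *
      ‖∑ n ∈ range N, cexp ((n : ℂ) * (((θ * om s j k : ℝ) : ℂ) * I))‖ ≤
      N * ((Real.pi / (N * θ * Real.log (1 / δ)) + Real.exp (-Real.pi / (4 * θ))) *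
        Real.exp (-|om s j k| / 4)) := by
  have hL : 0 < Real.log (1 / δ) := Real.log_pos (by rw [lt_div_iff₀ hδ]; linarith)
  obtain ⟨h1, -⟩ := om_ge s hs δ hδ hδ1 hd j k
  have hen := entry s hs e f he hf hyp j k
  have hw : 0 < |om s j k| := hL.trans_le h1
  have hNr : (0 : ℝ) < N := by exact_mod_cast hN
  rcases le_or_gt (|θ * om s j k|) Real.pi with h | h
  · have hg := geom_bound N (θ * om s j k) (mul_ne_zero hθ.ne' (abs_pos.1 hw)) h
    rw [abs_mul, abs_of_pos hθ] at hg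
    have h2 : Real.pi / (θ * |om s j k|) ≤ Real.pi / (θ * Real.log (1 / δ)) :=
      div_le_div_of_nonneg_left Real.pi_pos.le (by positivity)
        (mul_le_mul_of_nonneg_left h1 hθ.le)
    have h3 : Real.exp (-|om s j k| / 2) ≤ Real.exp (-|om s j k| / 4) :=
      Real.exp_le_exp.2 (by linarith)
    calc _ ≤ Real.exp (-|om s j k| / 4) * (Real.pi / (θ * Real.log (1 / δ))) :=
          mul_le_mul (hen.trans h3) (hg.trans h2) (norm_nonneg _) (Real.exp_pos _).le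
      _ = N * ((Real.pi / (N * θ * Real.log (1 / δ))) * Real.exp (-|om s j k| / 4)) := by
          field_simp
      _ ≤ _ := by
          refine mul_le_mul_of_nonneg_left ?_ hNr.le
          refine mul_le_mul_of_nonneg_right ?_ (Real.exp_pos _).le
          linarith [Real.exp_pos (-Real.pi / (4 * θ))]
  · rw [abs_mul, abs_of_pos hθ] at h
    have hg := geom_triv N (θ * om s j k)
    have h3 : Real.exp (-|om s j k| / 2) ≤
        Real.exp (-Real.pi / (4 * θ)) * Real.exp (-|om s j k| / 4) := by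
      rw [← Real.exp_add]
      refine Real.exp_le_exp.2 ?_
      have : Real.pi / (4 * θ) ≤ |om s j k| / 4 := by
        rw [div_le_div_iff₀ (by positivity) (by norm_num)]
        nlinarith
      have e4 : -Real.pi / (4 * θ) = -(Real.pi / (4 * θ)) := by ring
      rw [e4]
      linarith
    calc _ ≤ Real.exp (-Real.pi / (4 * θ)) * Real.exp (-|om s j k| / 4) * N :=
          mul_le_mul (hen.trans h3) hg (norm_nonneg _) (by positivity)
      _ = N * (Real.exp (-Real.pi / (4 * θ)) * Real.exp (-|om s j k| / 4)) := by ring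
      _ ≤ _ := by
          refine mul_le_mul_of_nonneg_left ?_ hNr.le
          refine mul_le_mul_of_nonneg_right ?_ (Real.exp_pos _).le
          have : 0 ≤ Real.pi / (N * θ * Real.log (1 / δ)) := by
            have := Real.pi_pos
            positivity
          linarith

lemma geom_le (r : ℝ) (hr0 : 0 ≤ r) (hr1 : r < 1) (n : ℕ) :
    ∑ i ∈ range n, r ^ i ≤ (1 - r)⁻¹ :=
  sum_le_hasSum (range n) (fun _ _ => pow_nonneg hr0 _) (hasSum_geometric_of_lt_one hr0 hr1)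

lemma dist_sum (r : ℝ) (hr0 : 0 ≤ r) (hr1 : r < 1) (J : Finset ℕ) (k : ℕ) :
    ∑ j ∈ J, r ^ dist' j k ≤ 2 * (1 - r)⁻¹ := by
  obtain ⟨M, hM⟩ := J.exists_nat_subset_range
  have h1 : ∑ j ∈ J, r ^ dist' j k ≤ ∑ j ∈ range (k + M), r ^ dist' j k := by
    refine Finset.sum_le_sum_of_subset_of_nonneg ?_ (fun _ _ _ => pow_nonneg hr0 _)
    refine hM.trans ?_
    intro a ha
    rw [Finset.mem_range] at ha ⊢
    omega
  have h2 : ∑ j ∈ range (k + M), r ^ dist' j k =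
      ∑ j ∈ range k, r ^ dist' j k + ∑ j ∈ range M, r ^ dist' (k + j) k := by
    rw [Finset.sum_range_add]
  have h3 : ∑ j ∈ range M, r ^ dist' (k + j) k = ∑ j ∈ range M, r ^ j := by
    refine Finset.sum_congr rfl fun j _ => ?_
    congr 1
    unfold dist'
    omega
  have h4 : ∑ j ∈ range k, r ^ dist' j k ≤ ∑ j ∈ range k, r ^ j := by
    rw [← Finset.sum_range_reflect (fun j => r ^ j) k]
    refine Finset.sum_le_sum fun j hj => ?_
    rw [Finset.mem_range] at hj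
    refine pow_le_pow_of_le_one hr0 hr1.le ?_
    unfold dist'
    omega
  have h5 := geom_le r hr0 hr1 M
  have h6 := geom_le r hr0 hr1 k
  rw [h2, h3] at h1
  linarith

lemma dist'_comm (j k : ℕ) : dist' j k = dist' k j := by
  unfold dist'
  omega

lemma schur (r : ℝ) (hr0 : 0 ≤ r) (hr1 : r < 1) (J K : Finset ℕ) (x y : ℕ → ℂ)
    (hx : ∑ j ∈ J, ‖x j‖ ^ 2 ≤ 1) (hy : ∑ k ∈ K, ‖y k‖ ^ 2 ≤ 1) :
    ∑ j ∈ J, ∑ k ∈ K, r ^ dist' j k * (‖x j‖ * ‖y k‖) ≤ 2 * (1 - r)⁻¹ := by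
  have hS : 0 < (1 - r)⁻¹ := inv_pos.2 (by linarith)
  have h1 : ∑ j ∈ J, ∑ k ∈ K, r ^ dist' j k * (‖x j‖ * ‖y k‖) ≤
      ∑ j ∈ J, ∑ k ∈ K, (‖x j‖ ^ 2 / 2 * r ^ dist' k j + ‖y k‖ ^ 2 / 2 * r ^ dist' j k) := by
    refine Finset.sum_le_sum fun j _ => Finset.sum_le_sum fun k _ => ?_
    rw [dist'_comm k j]
    have : 0 ≤ r ^ dist' j k := pow_nonneg hr0 _
    nlinarith [mul_nonneg this (sq_nonneg (‖x j‖ - ‖y k‖))]
  have h2 : ∑ j ∈ J, ∑ k ∈ K, ‖x j‖ ^ 2 / 2 * r ^ dist' k j ≤ (1 - r)⁻¹ := by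
    calc ∑ j ∈ J, ∑ k ∈ K, ‖x j‖ ^ 2 / 2 * r ^ dist' k j
        = ∑ j ∈ J, ‖x j‖ ^ 2 / 2 * ∑ k ∈ K, r ^ dist' k j := by
          refine Finset.sum_congr rfl fun j _ => ?_
          rw [Finset.mul_sum]
      _ ≤ ∑ j ∈ J, ‖x j‖ ^ 2 / 2 * (2 * (1 - r)⁻¹) := by
          refine Finset.sum_le_sum fun j _ => ?_
          exact mul_le_mul_of_nonneg_left (dist_sum r hr0 hr1 K j) (by positivity)
      _ = (∑ j ∈ J, ‖x j‖ ^ 2) * (1 - r)⁻¹ := by
          rw [Finset.sum_mul]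
          refine Finset.sum_congr rfl fun j _ => ?_
          ring
      _ ≤ 1 * (1 - r)⁻¹ := mul_le_mul_of_nonneg_right hx hS.le
      _ = (1 - r)⁻¹ := one_mul _
  have h3 : ∑ j ∈ J, ∑ k ∈ K, ‖y k‖ ^ 2 / 2 * r ^ dist' j k ≤ (1 - r)⁻¹ := by
    rw [Finset.sum_comm]
    calc ∑ k ∈ K, ∑ j ∈ J, ‖y k‖ ^ 2 / 2 * r ^ dist' j k
        = ∑ k ∈ K, ‖y k‖ ^ 2 / 2 * ∑ j ∈ J, r ^ dist' j k := by
          refine Finset.sum_congr rfl fun j _ => ?_
          rw [Finset.mul_sum]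
      _ ≤ ∑ k ∈ K, ‖y k‖ ^ 2 / 2 * (2 * (1 - r)⁻¹) := by
          refine Finset.sum_le_sum fun j _ => ?_
          exact mul_le_mul_of_nonneg_left (dist_sum r hr0 hr1 J j) (by positivity)
      _ = (∑ k ∈ K, ‖y k‖ ^ 2) * (1 - r)⁻¹ := by
          rw [Finset.sum_mul]
          refine Finset.sum_congr rfl fun j _ => ?_
          ring
      _ ≤ 1 * (1 - r)⁻¹ := mul_le_mul_of_nonneg_right hy hS.le
      _ = (1 - r)⁻¹ := one_mul _
  simp only [Finset.sum_add_distrib] at h1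
  linarith

/-- the average along the vertical line -/
lemma avg (s : ℕ → ℝ) (hs : ∀ r, 0 < s r) (δ : ℝ) (hδ : 0 < δ) (hδ1 : δ < 1)
    (hd : ∀ r, s (r + 1) ≤ δ * s r) (e f : ℕ → E) (he : Orthonormal ℂ e)
    (hf : Orthonormal ℂ f)
    (hyp : ∀ (J K : Finset ℕ) (x : ℕ → ℂ),
        ∑ k ∈ K, s (2 * k + 1) ^ 2 * ‖inner ℂ (f k) (∑ j ∈ J, x j • e j)‖ ^ 2 ≤
          ∑ j ∈ J, s (2 * j) ^ 2 * ‖x j‖ ^ 2) (θ : ℝ) (hθ : 0 < θ) (N : ℕ) (hN : 0 < N)
    (J K : Finset ℕ) (x y : ℕ → ℂ) (hx : ∑ j ∈ J, ‖x j‖ ^ 2 ≤ 1) (hy : ∑ k ∈ K, ‖y k‖ ^ 2 ≤ 1) :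
    ‖∑ n ∈ range N, G s e f J K x y (1 / 2 + (n : ℂ) * ((θ : ℂ) * I))‖ ≤
      N * ((Real.pi / (N * θ * Real.log (1 / δ)) + Real.exp (-Real.pi / (4 * θ))) *
        (2 * (1 - Real.exp (-Real.log (1 / δ) / 4))⁻¹)) := by
  have hL : 0 < Real.log (1 / δ) := Real.log_pos (by rw [lt_div_iff₀ hδ]; linarith)
  have hNr : (0 : ℝ) < N := by exact_mod_cast hN
  set r := Real.exp (-Real.log (1 / δ) / 4) with hr
  have hr0 : 0 < r := Real.exp_pos _
  have hr1 : r < 1 := by rw [hr, Real.exp_lt_one_iff]; linarith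
  set κ := Real.pi / (N * θ * Real.log (1 / δ)) + Real.exp (-Real.pi / (4 * θ)) with hκ
  have hκ0 : 0 ≤ κ := by
    have := Real.pi_pos
    positivity
  have h1 : ∑ n ∈ range N, G s e f J K x y (1 / 2 + (n : ℂ) * ((θ : ℂ) * I)) =
      ∑ j ∈ J, ∑ k ∈ K, (((Real.exp (om s j k / 2) : ℝ) : ℂ) * inner ℂ (f k) (e j) *
        ∑ n ∈ range N, cexp ((n : ℂ) * (((θ * om s j k : ℝ) : ℂ) * I))) * (x j * conj (y k)) := by
    unfold G
    rw [Finset.sum_comm]
    refine Finset.sum_congr rfl fun j _ => ?_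
    rw [Finset.sum_comm]
    refine Finset.sum_congr rfl fun k _ => ?_
    rw [Finset.mul_sum, Finset.sum_mul]
    refine Finset.sum_congr rfl fun n _ => ?_
    have : cexp ((1 / 2 + (n : ℂ) * ((θ : ℂ) * I)) * (om s j k : ℂ)) =
        ((Real.exp (om s j k / 2) : ℝ) : ℂ) *
          cexp ((n : ℂ) * (((θ * om s j k : ℝ) : ℂ) * I)) := by
      rw [Complex.ofReal_exp, ← Complex.exp_add]
      congr 1
      push_cast
      ring
    rw [this]
    ring
  rw [h1]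
  calc _ ≤ ∑ j ∈ J, ∑ k ∈ K, (N * (κ * r ^ dist' j k)) * (‖x j‖ * ‖y k‖) := by
        refine (norm_sum_le _ _).trans (Finset.sum_le_sum fun j _ => (norm_sum_le _ _).trans
          (Finset.sum_le_sum fun k _ => ?_))
        rw [norm_mul, norm_mul (x j), RCLike.norm_conj]
        refine mul_le_mul_of_nonneg_right ?_ (by positivity)
        rw [norm_mul, norm_mul, Complex.norm_real, Real.norm_eq_abs, abs_of_pos (Real.exp_pos _)]
        refine (entry_avg s hs δ hδ hδ1 hd e f he hf hyp θ hθ N hN j k).trans ?_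
        refine mul_le_mul_of_nonneg_left ?_ hNr.le
        refine mul_le_mul_of_nonneg_left ?_ hκ0
        rw [hr, ← Real.exp_nat_mul]
        refine Real.exp_le_exp.2 ?_
        have := (om_ge s hs δ hδ hδ1 hd j k).2
        linarith
    _ = N * (κ * ∑ j ∈ J, ∑ k ∈ K, r ^ dist' j k * (‖x j‖ * ‖y k‖)) := by
        rw [Finset.mul_sum, Finset.mul_sum]
        refine Finset.sum_congr rfl fun j _ => ?_
        rw [Finset.mul_sum, Finset.mul_sum]
        refine Finset.sum_congr rfl fun k _ => ?_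
        ring
    _ ≤ N * (κ * (2 * (1 - r)⁻¹)) := by
        refine mul_le_mul_of_nonneg_left ?_ hNr.le
        exact mul_le_mul_of_nonneg_left (schur r hr0.le hr1 J K x y hx hy) hκ0

/-- Borel-Caratheodory chain -/
lemma chain (g : ℂ → ℂ) (hg : Differentiable ℂ g)
    (hb : ∀ z : ℂ, 0 ≤ z.re → z.re ≤ 1 → ‖g z‖ ≤ 1) (θ : ℝ) (hθ : 0 < θ) (hθ1 : θ ≤ 1 / 4)
    (ε : ℝ) (hε : 0 < ε) (h0 : 1 - ε ≤ (g (1 / 2)).re) (n : ℕ) :
    1 - 3 ^ n * ε ≤ (g (1 / 2 + (n : ℂ) * ((θ : ℂ) * I))).re := by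
  induction n with
  | zero => simpa using h0
  | succ n ih =>
    set w : ℂ := 1 / 2 + (n : ℂ) * ((θ : ℂ) * I) with hw
    have hwre : w.re = 1 / 2 := by
      rw [hw]
      simp
    have hM : (0 : ℝ) < 3 ^ n * ε := by positivity
    have hz : ((θ : ℂ) * I) ∈ Metric.ball (0 : ℂ) (1 / 2) := by
      rw [mem_ball_zero_iff]
      simp only [norm_mul, Complex.norm_real, Complex.norm_I, mul_one, Real.norm_eq_abs,
        abs_of_pos hθ]
      linarith
    have key := Complex.borelCaratheodory_zero (f := fun z => g (w + z) - g w) (R := 1 / 2)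
      (z := (θ : ℂ) * I) hM (by
        have : Differentiable ℂ fun z => g (w + z) - g w :=
          (hg.comp (differentiable_id.const_add w)).sub_const _
        exact this.differentiableOn) (by
        intro z hz
        rw [mem_ball_zero_iff] at hz
        have hzre : |z.re| < 1 / 2 := (Complex.abs_re_le_norm z).trans_lt hz
        rw [abs_lt] at hzre
        have h1 : (g (w + z)).re ≤ 1 := by
          refine (Complex.re_le_norm _).trans (hb _ ?_ ?_)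
          · rw [Complex.add_re, hwre]; linarith
          · rw [Complex.add_re, hwre]; linarith
        show (g (w + z) - g w).re ≤ _
        rw [Complex.sub_re]
        linarith) (by norm_num) hz (by simp)
    simp only [norm_mul, Complex.norm_real, Complex.norm_I, mul_one, Real.norm_eq_abs,
        abs_of_pos hθ] at key
    have h2 : 2 * (3 ^ n * ε) * θ / (1 / 2 - θ) ≤ 2 * (3 ^ n * ε) := by
      rw [div_le_iff₀ (by linarith)]
      nlinarith
    have h3 := (Complex.abs_re_le_norm _).trans (key.trans h2)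
    rw [Complex.sub_re, abs_le] at h3
    have e1 : (1 / 2 + ((n + 1 : ℕ) : ℂ) * ((θ : ℂ) * I)) = w + (θ : ℂ) * I := by
      rw [hw]
      push_cast
      ring
    rw [e1, pow_succ]
    linarith [h3.1]

/-- the normalised estimate -/
lemma core_norm (δ : ℝ) (hδ : 0 < δ) (hδ1 : δ < 1) : ∃ q : ℝ, 0 < q ∧ q < 1 ∧
    ∀ (E : Type) [NormedAddCommGroup E] [InnerProductSpace ℂ E] (s : ℕ → ℝ), (∀ r, 0 < s r) →
      (∀ r, s (r + 1) ≤ δ * s r) → ∀ e f : ℕ → E, Orthonormal ℂ e → Orthonormal ℂ f →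
        (∀ (J K : Finset ℕ) (x : ℕ → ℂ),
          ∑ k ∈ K, s (2 * k + 1) ^ 2 * ‖inner ℂ (f k) (∑ j ∈ J, x j • e j)‖ ^ 2 ≤
            ∑ j ∈ J, s (2 * j) ^ 2 * ‖x j‖ ^ 2) →
          ∀ (J K : Finset ℕ) (x y : ℕ → ℂ), ∑ j ∈ J, ‖x j‖ ^ 2 ≤ 1 → ∑ k ∈ K, ‖y k‖ ^ 2 ≤ 1 →
            ‖G s e f J K x y (1 / 2)‖ ≤ q := by
  have hL : 0 < Real.log (1 / δ) := Real.log_pos (by rw [lt_div_iff₀ hδ]; linarith)
  set S := 2 * (1 - Real.exp (-Real.log (1 / δ) / 4))⁻¹ with hS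
  have hr1 : Real.exp (-Real.log (1 / δ) / 4) < 1 := by rw [Real.exp_lt_one_iff]; linarith
  have hS0 : 0 < S := by
    have : 0 < (1 - Real.exp (-Real.log (1 / δ) / 4))⁻¹ := inv_pos.2 (by linarith)
    positivity
  set X := max Real.pi (4 * S) with hX
  have hXpi : Real.pi ≤ X := le_max_left _ _
  have hXS : 4 * S ≤ X := le_max_right _ _
  have hX0 : 0 < X := Real.pi_pos.trans_le hXpi
  set θ := Real.pi / (4 * X) with hθd
  have hθ : 0 < θ := by
    have := Real.pi_pos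
    positivity
  have hθ1 : θ ≤ 1 / 4 := by
    rw [hθd, div_le_div_iff₀ (by positivity) (by norm_num)]
    linarith
  have hexp : Real.exp (-Real.pi / (4 * θ)) * S ≤ 1 / 4 := by
    have e1 : -Real.pi / (4 * θ) = -X := by
      rw [hθd]
      field_simp [Real.pi_pos.ne']
    rw [e1, Real.exp_neg]
    have h1 : X ≤ Real.exp X := by linarith [Real.add_one_le_exp X]
    rw [inv_mul_le_iff₀ (Real.exp_pos _)]
    linarith
  obtain ⟨N₀, hN₀⟩ := exists_nat_ge (4 * Real.pi * S / (θ * Real.log (1 / δ)))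
  set N := N₀ + 1 with hNd
  have hN : 0 < N := Nat.succ_pos _
  have hNr : (0 : ℝ) < N := by exact_mod_cast hN
  have hN1 : 4 * Real.pi * S / (θ * Real.log (1 / δ)) ≤ N := by
    rw [hNd]
    push_cast
    linarith
  have hpi : Real.pi / (N * θ * Real.log (1 / δ)) * S ≤ 1 / 4 := by
    rw [div_le_iff₀ (by positivity)] at hN1
    rw [div_mul_eq_mul_div, div_le_iff₀ (by positivity)]
    nlinarith
  set ε : ℝ := 1 / (2 * 3 ^ N) with hε
  have hε0 : 0 < ε := by positivity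
  have h3N : (3 : ℝ) ≤ 3 ^ N := by
    rw [hNd, pow_succ]
    have : (1 : ℝ) ≤ 3 ^ N₀ := one_le_pow₀ (by norm_num)
    linarith
  have hε1 : ε < 1 := by
    rw [hε, div_lt_one (by positivity)]
    linarith
  refine ⟨1 - ε, by linarith, by linarith, ?_⟩
  intro E _ _ s hs hd e f he hf hyp J K x y hx hy
  by_contra hcon
  rw [not_le] at hcon
  set c₀ := G s e f J K x y (1 / 2) with hc₀
  have hcpos : 0 < ‖c₀‖ := by linarith
  set c : ℂ := conj c₀ / (‖c₀‖ : ℂ) with hc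
  have hcn : ‖c‖ = 1 := by
    rw [hc, norm_div, RCLike.norm_conj, Complex.norm_real, norm_norm, div_self hcpos.ne']
  have hcc : c * c₀ = (‖c₀‖ : ℂ) := by
    rw [hc, div_mul_eq_mul_div, Complex.conj_mul']
    have : (‖c₀‖ : ℂ) ≠ 0 := by exact_mod_cast hcpos.ne'
    field_simp
  have hch := chain (fun z => c * G s e f J K x y z) ((G_diff s e f J K x y).const_mul c)
    (fun z h0 h1 => by
      rw [norm_mul, hcn, one_mul]
      exact G_strip s hs e f he hf hyp J K x y hx hy z h0 h1) θ hθ hθ1 ε hε0 (by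
        show 1 - ε ≤ (c * c₀).re
        rw [hcc, Complex.ofReal_re]
        exact hcon.le)
  have hav := avg s hs δ hδ hδ1 hd e f he hf hyp θ hθ N hN J K x y hx hy
  have hav2 : (Real.pi / (N * θ * Real.log (1 / δ)) + Real.exp (-Real.pi / (4 * θ))) * S
      ≤ 1 / 2 := by
    rw [add_mul]
    linarith
  have hav3 : ‖∑ n ∈ range N, G s e f J K x y (1 / 2 + (n : ℂ) * ((θ : ℂ) * I))‖ ≤
      N * (1 / 2) := hav.trans (mul_le_mul_of_nonneg_left hav2 hNr.le)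
  have h4 : (N : ℝ) * (5 / 6) ≤ (c * ∑ n ∈ range N,
      G s e f J K x y (1 / 2 + (n : ℂ) * ((θ : ℂ) * I))).re := by
    rw [Finset.mul_sum, Complex.re_sum]
    calc (N : ℝ) * (5 / 6) = ∑ n ∈ range N, (5 / 6 : ℝ) := by simp
      _ ≤ _ := by
        refine Finset.sum_le_sum fun n hn => ?_
        refine le_trans ?_ (hch n)
        rw [Finset.mem_range] at hn
        have h5 : (3 : ℝ) ^ n ≤ 3 ^ N₀ := pow_le_pow_right₀ (by norm_num) (by omega)
        have h6 : (3 : ℝ) ^ N₀ * ε = 1 / 6 := by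
          rw [hε, hNd, pow_succ]
          field_simp
          norm_num
        nlinarith
  have h5 := (Complex.re_le_norm _).trans_eq (norm_mul c (∑ n ∈ range N,
      G s e f J K x y (1 / 2 + (n : ℂ) * ((θ : ℂ) * I))))
  rw [hcn, one_mul] at h5
  linarith

end Pool.Agent.R286.HT.CoreAux

namespace Pool.Agent.R286.HT

open CoreAux

theorem core : StCore := by
  intro δ hδ hδ1
  obtain ⟨q, hq0, hq1, hq⟩ := core_norm δ hδ hδ1
  refine ⟨q, hq0, hq1, ?_⟩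
  intro E _ _ s hs hd e f he hf hyp J K x y
  have hG : ∀ x y : ℕ → ℂ, ∑ j ∈ J, ∑ k ∈ K, (((s (2 * k + 1) / s (2 * j)) ^ (1 / 2 : ℝ) : ℝ) : ℂ)
      * x j * conj (y k) * inner ℂ (f k) (e j) = G s e f J K x y (1 / 2) := by
    intro x y
    unfold G
    refine Finset.sum_congr rfl fun j _ => Finset.sum_congr rfl fun k _ => ?_
    congr 3
    rw [Real.rpow_def_of_pos (div_pos (hs _) (hs _)), Real.log_div (hs _).ne' (hs _).ne',
      Complex.ofReal_exp]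
    congr 1
    unfold om
    push_cast
    ring
  rw [hG]
  set A := ∑ j ∈ J, ‖x j‖ ^ 2 with hA
  set B := ∑ k ∈ K, ‖y k‖ ^ 2 with hB
  have hA0 : 0 ≤ A := Finset.sum_nonneg fun _ _ => by positivity
  have hB0 : 0 ≤ B := Finset.sum_nonneg fun _ _ => by positivity
  rcases eq_or_lt_of_le hA0 with hA1 | hA1
  · have hx : ∀ j ∈ J, x j = 0 := by
      intro j hj
      have := (Finset.sum_eq_zero_iff_of_nonneg (fun _ _ => by positivity)).1 hA1.symm j hj
      simpa using this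
    have : G s e f J K x y (1 / 2) = 0 := by
      unfold G
      refine Finset.sum_eq_zero fun j hj => Finset.sum_eq_zero fun k _ => ?_
      rw [hx j hj]
      simp
    rw [this, norm_zero]
    positivity
  rcases eq_or_lt_of_le hB0 with hB1 | hB1
  · have hy : ∀ k ∈ K, y k = 0 := by
      intro k hk
      have := (Finset.sum_eq_zero_iff_of_nonneg (fun _ _ => by positivity)).1 hB1.symm k hk
      simpa using this
    have : G s e f J K x y (1 / 2) = 0 := by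
      unfold G
      refine Finset.sum_eq_zero fun j _ => Finset.sum_eq_zero fun k hk => ?_
      rw [hy k hk]
      simp
    rw [this, norm_zero]
    positivity
  have hsA : 0 < Real.sqrt A := Real.sqrt_pos.2 hA1
  have hsB : 0 < Real.sqrt B := Real.sqrt_pos.2 hB1
  have hnx : ∑ j ∈ J, ‖((Real.sqrt A : ℝ) : ℂ)⁻¹ * x j‖ ^ 2 ≤ 1 := by
    have : ∀ j ∈ J, ‖((Real.sqrt A : ℝ) : ℂ)⁻¹ * x j‖ ^ 2 = A⁻¹ * ‖x j‖ ^ 2 := by
      intro j _
      rw [norm_mul, norm_inv, Complex.norm_real, Real.norm_eq_abs, abs_of_pos hsA, mul_pow,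
        inv_pow, Real.sq_sqrt hA0]
    rw [Finset.sum_congr rfl this, ← Finset.mul_sum, ← hA, inv_mul_cancel₀ hA1.ne']
  have hny : ∑ k ∈ K, ‖((Real.sqrt B : ℝ) : ℂ)⁻¹ * y k‖ ^ 2 ≤ 1 := by
    have : ∀ k ∈ K, ‖((Real.sqrt B : ℝ) : ℂ)⁻¹ * y k‖ ^ 2 = B⁻¹ * ‖y k‖ ^ 2 := by
      intro j _
      rw [norm_mul, norm_inv, Complex.norm_real, Real.norm_eq_abs, abs_of_pos hsB, mul_pow,
        inv_pow, Real.sq_sqrt hB0]
    rw [Finset.sum_congr rfl this, ← Finset.mul_sum, ← hB, inv_mul_cancel₀ hB1.ne']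
  have key := hq E s hs hd e f he hf hyp J K _ _ hnx hny
  have hscale : G s e f J K x y (1 / 2) = ((Real.sqrt A : ℝ) : ℂ) * ((Real.sqrt B : ℝ) : ℂ) *
      G s e f J K (fun j => ((Real.sqrt A : ℝ) : ℂ)⁻¹ * x j)
        (fun k => ((Real.sqrt B : ℝ) : ℂ)⁻¹ * y k) (1 / 2) := by
    have hA2 : ((Real.sqrt A : ℝ) : ℂ) ≠ 0 := by exact_mod_cast hsA.ne'
    have hB2 : ((Real.sqrt B : ℝ) : ℂ) ≠ 0 := by exact_mod_cast hsB.ne'
    unfold G
    rw [Finset.mul_sum]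
    refine Finset.sum_congr rfl fun j _ => ?_
    rw [Finset.mul_sum]
    refine Finset.sum_congr rfl fun k _ => ?_
    rw [map_mul, map_inv₀, Complex.conj_ofReal]
    field_simp
  rw [hscale, norm_mul, norm_mul, Complex.norm_real, Complex.norm_real, Real.norm_eq_abs,
    Real.norm_eq_abs, abs_of_pos hsA, abs_of_pos hsB]
  calc Real.sqrt A * Real.sqrt B * _ ≤ Real.sqrt A * Real.sqrt B * q :=
        mul_le_mul_of_nonneg_left key (by positivity)
    _ = q * Real.sqrt A * Real.sqrt B := by ring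

end Pool.Agent.R286.HT
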