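import Pool.Agent.R286.HT.Stm

set_option autoImplicit false

open ComplexConjugate Finset

namespace Pool.Agent.R286.HT

theorem main (hO : StOps) (hS : StSpec) (hC : StCoef) : StMain := by
  intro δ hδ hδ1
  obtain ⟨q, hq, hq1, H⟩ := hC δ hδ hδ1
  have hqi : 1 < 1 / q := by rw [lt_div_iff₀ hq]; linarith
  refine ⟨(1 / q - 1) / 2, by linarith, fun s hs hss => ?_⟩
  set R : ℝ := 1 + (1 / q - 1) / 2 with hR
  have hR1 : 1 < R := by rw [hR]; linarith
  have hR2 : R < 1 / q := by rw [hR]; linarith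
  have hqR : q * R < 1 := by
    rw [lt_div_iff₀ hq] at hR2
    linarith
  have hqR0 : 0 ≤ q * R := by positivity
  refine ⟨s 0 / (1 - q * R), fun u hu => ?_⟩
  have hlt : ∀ r, s (r + 1) < s r := by
    intro r
    have h1 := hss r
    have h2 := hs r
    nlinarith
  obtain ⟨T, K, hTK⟩ := hO u hu.1
  obtain ⟨e, f, hef⟩ := hS s hs hlt u hu T K hTK
  have hc := H s hs hss u T K hTK e f hef
  have hgeo : HasSum (fun n : ℕ => s 0 * (q * R) ^ n) (s 0 / (1 - q * R)) := by
    have := (hasSum_geometric_of_lt_one hqR0 hqR).mul_left (s 0)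
    rwa [← div_eq_mul_inv] at this
  have hb : ∀ (n : ℕ) (z : ℂ), z ∈ Metric.ball (0 : ℂ) R → ‖u n * z ^ n‖ ≤ s 0 * (q * R) ^ n := by
    intro n z hz
    rw [mem_ball_zero_iff] at hz
    rw [norm_mul, norm_pow, mul_pow, ← mul_assoc]
    exact mul_le_mul (hc n) (pow_le_pow_left₀ (norm_nonneg _) hz.le n) (by positivity)
      (mul_nonneg (hs 0).le (by positivity))
  refine ⟨fun z => ∑' n, u n * z ^ n, ?_, ?_, ?_⟩
  · refine Complex.differentiableOn_tsum_of_summable_norm hgeo.summable (fun n => ?_)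
      Metric.isOpen_ball hb
    fun_prop
  · intro z hz
    have hz' : z ∈ Metric.ball (0 : ℂ) R := by
      rw [mem_ball_zero_iff]; linarith
    exact (Summable.of_norm_bounded hgeo.summable (fun n => hb n z hz')).hasSum
  · intro z hz
    exact tsum_of_norm_bounded hgeo (fun n => hb n z hz)

end Pool.Agent.R286.HT
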