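import Pool.Agent.R286.HT.Stm

set_option autoImplicit false

open ComplexConjugate Finset Filter Topology

namespace Pool.Agent.R286.HT

namespace OpsAux

theorem l2_mem {h : ℕ → ℂ} (hh : L2 h) : Memℓp h 2 := by
  rw [memℓp_gen_iff (by norm_num)]
  unfold L2 at hh
  refine hh.congr fun n => ?_
  simp

theorem h2_sq (x : H2) : Summable fun n => ‖x n‖ ^ 2 := by
  have := (memℓp_gen_iff (p := 2) (by norm_num)).1 (lp.memℓp x)
  refine this.congr fun n => ?_
  simp

theorem h2_norm (x : H2) : ‖x‖ ^ 2 = ∑' n, ‖x n‖ ^ 2 := by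
  have := lp.norm_rpow_eq_tsum (p := 2) (by norm_num) x
  simpa using this

theorem h2_inner (x y : H2) : inner ℂ x y = ∑' n, conj (x n) * y n := by
  rw [lp.inner_eq_tsum]
  congr 1
  ext n
  simp [mul_comm]

theorem mem_rows (r : ℕ → H2) (hr : Summable fun n => ‖r n‖ ^ 2) (x : H2) :
    Memℓp (fun n => inner ℂ x (r n) : ℕ → ℂ) 2 := by
  apply l2_mem
  unfold L2
  refine Summable.of_nonneg_of_le (fun n => by positivity) (fun n => ?_) (hr.mul_left (‖x‖ ^ 2))
  have h := norm_inner_le_norm (𝕜 := ℂ) x (r n)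
  rw [← mul_pow]
  gcongr

/-- the operator with given rows -/
noncomputable def Op (r : ℕ → H2) (hr : Summable fun n => ‖r n‖ ^ 2) :
    H2 →SL[starRingEnd ℂ] H2 :=
  LinearMap.mkContinuous
    { toFun := fun x => ⟨fun n => inner ℂ x (r n), mem_rows r hr x⟩
      map_add' := fun x y => by
        apply lp.ext
        funext n
        exact inner_add_left _ _ _
      map_smul' := fun c x => by
        apply lp.ext
        funext n
        exact inner_smul_left _ _ _ }
    (Real.sqrt (∑' n, ‖r n‖ ^ 2))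
    (fun x => by
      apply lp.norm_le_of_forall_sum_le (by norm_num) (by positivity)
      intro s
      have h1 : ∀ i ∈ s, ‖inner ℂ x (r i)‖ ^ 2 ≤ ‖x‖ ^ 2 * ‖r i‖ ^ 2 := by
        intro i _
        have h := norm_inner_le_norm (𝕜 := ℂ) x (r i)
        rw [← mul_pow]
        gcongr
      have h2 : ∑ i ∈ s, ‖inner ℂ x (r i)‖ ^ 2 ≤ ‖x‖ ^ 2 * ∑' n, ‖r n‖ ^ 2 := by
        refine (sum_le_sum h1).trans ?_
        rw [← mul_sum]
        exact mul_le_mul_of_nonneg_left (hr.sum_le_tsum s (fun i _ => by positivity))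
          (by positivity)
      have h3 : (Real.sqrt (∑' n, ‖r n‖ ^ 2) * ‖x‖) ^ 2 = ‖x‖ ^ 2 * ∑' n, ‖r n‖ ^ 2 := by
        rw [mul_pow, Real.sq_sqrt (tsum_nonneg fun n => by positivity)]
        ring
      have h4 : ∑ i ∈ s, ‖inner ℂ x (r i)‖ ^ 2 ≤ (Real.sqrt (∑' n, ‖r n‖ ^ 2) * ‖x‖) ^ 2 := by
        rw [h3]; exact h2
      simpa using h4)

theorem Op_apply (r : ℕ → H2) (hr : Summable fun n => ‖r n‖ ^ 2) (x : H2) (n : ℕ) :
    (Op r hr x : ℕ → ℂ) n = inner ℂ x (r n) := rfl

theorem Op_norm (r : ℕ → H2) (hr : Summable fun n => ‖r n‖ ^ 2) :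
    ‖Op r hr‖ ≤ Real.sqrt (∑' n, ‖r n‖ ^ 2) :=
  LinearMap.mkContinuous_norm_le _ (Real.sqrt_nonneg _) _

/-- truncation -/
noncomputable def tr (r : ℕ → H2) (N n : ℕ) : H2 := if n < N then r n else 0

theorem tr_sum (r : ℕ → H2) (hr : Summable fun n => ‖r n‖ ^ 2) (N : ℕ) :
    Summable fun n => ‖tr r N n‖ ^ 2 := by
  refine Summable.of_nonneg_of_le (fun n => by positivity) (fun n => ?_) hr
  unfold tr
  split_ifs
  · exact le_rfl
  · simp

theorem Op_tr_compact (r : ℕ → H2) (hr : Summable fun n => ‖r n‖ ^ 2) (N : ℕ) :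
    IsCompactOperator (Op (tr r N) (tr_sum r hr N)) := by
  have h1 : (Op (tr r N) (tr_sum r hr N) : H2 → H2) =
      fun x => ∑ n ∈ range N, (inner ℂ x (r n) : ℂ) • (lp.single 2 n (1 : ℂ) : H2) := by
    funext x
    apply lp.ext
    funext m
    rw [Op_apply]
    have h2 : ((∑ n ∈ range N, (inner ℂ x (r n) : ℂ) • (lp.single 2 n (1 : ℂ) : H2) : H2) :
        ℕ → ℂ) m = ∑ n ∈ range N, (inner ℂ x (r n) : ℂ) * (if m = n then 1 else 0) := by
      rw [lp.coeFn_sum, Finset.sum_apply]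
      apply sum_congr rfl
      intro n _
      rw [lp.coeFn_smul, Pi.smul_apply, lp.single_apply, Pi.single_apply]
      rfl
    rw [h2]
    simp only [mul_ite, mul_one, mul_zero, sum_ite_eq, mem_range]
    unfold tr
    split_ifs <;> simp
  rw [h1]
  have key : ∀ n, IsCompactOperator
      (fun x : H2 => (inner ℂ x (r n) : ℂ) • (lp.single 2 n (1 : ℂ) : H2)) := by
    intro n
    have h3 : IsCompactOperator (innerSL ℂ (r n)) :=
      isCompactOperator_of_locallyCompactSpace_dom _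
    have h4 := h3.continuous_comp (g := fun c : ℂ => (conj c) • (lp.single 2 n (1 : ℂ) : H2))
      (by fun_prop)
    have h5 : (fun x : H2 => (inner ℂ x (r n) : ℂ) • (lp.single 2 n (1 : ℂ) : H2)) =
        (fun c : ℂ => (conj c) • (lp.single 2 n (1 : ℂ) : H2)) ∘ (innerSL ℂ (r n)) := by
      funext x
      simp only [Function.comp, innerSL_apply_apply, inner_conj_symm]
    rw [h5]
    exact h4
  clear h1
  induction N with
  | zero =>
    simp only [range_zero, sum_empty]
    exact isCompactOperator_zero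
  | succ N ih =>
    simp only [sum_range_succ]
    exact ih.add (key N)

theorem Op_compact (r : ℕ → H2) (hr : Summable fun n => ‖r n‖ ^ 2) :
    IsCompactOperator (Op r hr) := by
  have ht : Tendsto (fun N => Op (tr r N) (tr_sum r hr N)) atTop (𝓝 (Op r hr)) := by
    rw [tendsto_iff_norm_sub_tendsto_zero]
    have h1 : ∀ N, ‖Op (tr r N) (tr_sum r hr N) - Op r hr‖ ≤
        Real.sqrt (∑' k, ‖r (k + N)‖ ^ 2) := by
      intro N
      have hs : Summable fun n => ‖tr r N n - r n‖ ^ 2 := by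
        refine Summable.of_nonneg_of_le (fun n => by positivity) (fun n => ?_) hr
        unfold tr
        split_ifs <;> simp
      have h2 : Op (tr r N) (tr_sum r hr N) - Op r hr = Op (fun n => tr r N n - r n) hs := by
        refine ContinuousLinearMap.ext fun x => ?_
        apply lp.ext
        funext n
        rw [Op_apply]
        change (Op (tr r N) (tr_sum r hr N) x : ℕ → ℂ) n - (Op r hr x : ℕ → ℂ) n = _
        rw [Op_apply, Op_apply, inner_sub_right]
      rw [h2]
      refine (Op_norm _ _).trans (Real.sqrt_le_sqrt (le_of_eq ?_))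
      rw [← hs.sum_add_tsum_nat_add N]
      have h3 : ∑ i ∈ range N, ‖tr r N i - r i‖ ^ 2 = 0 := by
        apply sum_eq_zero
        intro i hi
        rw [mem_range] at hi
        simp [tr, hi]
      rw [h3, zero_add]
      congr 1
      funext k
      have : ¬ (k + N < N) := by omega
      simp [tr, this]
    have h4 : Tendsto (fun N => Real.sqrt (∑' k, ‖r (k + N)‖ ^ 2)) atTop (𝓝 0) := by
      have h5 := tendsto_sum_nat_add (fun n => ‖r n‖ ^ 2)
      have h6 := (Real.continuous_sqrt.tendsto 0).comp h5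
      rw [Real.sqrt_zero] at h6
      exact h6
    exact squeeze_zero (fun _ => norm_nonneg _) h1 h4
  exact isCompactOperator_of_tendsto ht (Eventually.of_forall fun N => Op_tr_compact r hr N)

theorem prod_summable (v : ℕ → ℂ) (hv : Summable fun n : ℕ => (1 + (n : ℝ)) * ‖v n‖ ^ 2) :
    Summable fun p : ℕ × ℕ => ‖v (p.1 + p.2)‖ ^ 2 := by
  rw [← (Finset.HasAntidiagonal.sigmaAntidiagonalEquivProd (A := ℕ)).summable_iff,
    summable_sigma_of_nonneg (fun _ => by simp only [Function.comp]; positivity)]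
  refine ⟨fun n => (hasSum_fintype _).summable, ?_⟩
  refine hv.congr fun n => ?_
  rw [tsum_fintype]
  have h1 : ∀ q : antidiagonal n, ((fun p : ℕ × ℕ => ‖v (p.1 + p.2)‖ ^ 2) ∘
      (Finset.HasAntidiagonal.sigmaAntidiagonalEquivProd (A := ℕ))) ⟨n, q⟩ = ‖v n‖ ^ 2 := by
    intro q
    have h2 := mem_antidiagonal.1 q.2
    simp [h2]
  rw [sum_congr rfl (fun q _ => h1 q), sum_const, card_univ, Fintype.card_coe,
    Finset.Nat.card_antidiagonal, nsmul_eq_mul]
  push_cast
  ring

theorem symm_seq (v x y : ℕ → ℂ) (hP : Summable fun p : ℕ × ℕ => ‖v (p.1 + p.2)‖ ^ 2)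
    (hx : Summable fun n => ‖x n‖ ^ 2) (hy : Summable fun n => ‖y n‖ ^ 2) :
    ∑' n, conj (y n) * hankel v x n = ∑' n, conj (x n) * hankel v y n := by
  simp only [hankel, ← tsum_mul_left]
  have hsum : Summable fun p : ℕ × ℕ => conj (y p.1) * (v (p.1 + p.2) * conj (x p.2)) := by
    apply Summable.of_norm
    have h1 : Summable fun p : ℕ × ℕ => ‖y p.1‖ ^ 2 * ‖x p.2‖ ^ 2 :=
      hy.mul_of_nonneg hx (fun _ => by positivity) (fun _ => by positivity)
    refine Summable.of_nonneg_of_le (fun p => norm_nonneg _) (fun p => ?_) (h1.add hP)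
    rw [norm_mul, norm_mul, RCLike.norm_conj, RCLike.norm_conj]
    nlinarith [sq_nonneg (‖y p.1‖ * ‖x p.2‖ - ‖v (p.1 + p.2)‖), norm_nonneg (y p.1),
      norm_nonneg (x p.2), norm_nonneg (v (p.1 + p.2)),
      mul_nonneg (norm_nonneg (y p.1)) (norm_nonneg (x p.2)),
      sq_nonneg (‖y p.1‖ * ‖x p.2‖), sq_nonneg (‖v (p.1 + p.2)‖)]
  rw [← Summable.tsum_comm (f := fun n m => conj (y n) * (v (n + m) * conj (x m))) hsum]
  congr 1
  funext m
  congr 1
  funext n
  rw [add_comm n m]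
  ring

theorem exists_gen (v : ℕ → ℂ) (hv : Summable fun n : ℕ => (1 + (n : ℝ)) * ‖v n‖ ^ 2) :
    ∃ V : H2 →SL[starRingEnd ℂ] H2, (∀ (x : H2) (n : ℕ), (V x : ℕ → ℂ) n = hankel v x n) ∧
      (∀ x y : H2, inner ℂ y (V x) = inner ℂ x (V y)) ∧ IsCompactOperator V := by
  have hP := prod_summable v hv
  have hP2 := (summable_prod_of_nonneg (f := fun p : ℕ × ℕ => ‖v (p.1 + p.2)‖ ^ 2)
    (fun p => by positivity)).1 hP
  obtain ⟨hrow, hcol⟩ := hP2
  let r : ℕ → H2 := fun n => ⟨fun m => v (n + m), l2_mem (hrow n)⟩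
  have hr_apply : ∀ n m, (r n : ℕ → ℂ) m = v (n + m) := fun n m => rfl
  have hr : Summable fun n => ‖r n‖ ^ 2 := by
    refine hcol.congr fun n => ?_
    rw [h2_norm]
  have hap : ∀ (x : H2) (n : ℕ), (Op r hr x : ℕ → ℂ) n = hankel v x n := by
    intro x n
    rw [Op_apply, h2_inner]
    unfold hankel
    congr 1
    funext m
    rw [hr_apply, mul_comm]
  refine ⟨Op r hr, hap, ?_, Op_compact r hr⟩
  intro x y
  rw [h2_inner, h2_inner]
  simp only [hap]
  exact symm_seq v x y hP (h2_sq x) (h2_sq y)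

end OpsAux

theorem ops : StOps := by
  intro u hu
  have hu1 : Summable fun n : ℕ => (1 + (n : ℝ)) * ‖u (n + 1)‖ ^ 2 := by
    have h1 := (summable_nat_add_iff 1).2 hu
    refine Summable.of_nonneg_of_le (fun n => by positivity) (fun n => ?_) h1
    have : (1 + (n : ℝ)) ≤ 1 + ((n + 1 : ℕ) : ℝ) := by push_cast; linarith
    gcongr
  obtain ⟨T, hT, hTs, hTc⟩ := OpsAux.exists_gen u hu
  obtain ⟨K, hK, hKs, hKc⟩ := OpsAux.exists_gen (fun n => u (n + 1)) hu1
  have hTK : ∀ (x : H2) (n : ℕ), (K x : ℕ → ℂ) n = (T x : ℕ → ℂ) (n + 1) := by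
    intro x n
    rw [hK, hT]
    unfold hankel
    congr 1
    funext m
    rw [show n + 1 + m = n + m + 1 by ring]
  refine ⟨T, K, ⟨hT, ?_, hTK, hTs, hKs, hTc, hKc⟩⟩
  intro x n
  rw [hK]
  unfold hankel
  -- absolute convergence
  have hs : Summable fun m => u (n + m) * conj (shift x m) := by
    rw [← summable_nat_add_iff 1]
    apply Summable.of_norm
    have hu2 : Summable fun m : ℕ => ‖u (n + (m + 1))‖ ^ 2 := by
      have h3 : Summable fun m : ℕ => ‖u m‖ ^ 2 := by
        refine Summable.of_nonneg_of_le (fun m => by positivity) (fun m => ?_) hu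
        have : (0 : ℝ) ≤ m := by positivity
        nlinarith [sq_nonneg ‖u m‖, mul_nonneg this (sq_nonneg ‖u m‖)]
      have h4 := (summable_nat_add_iff (n + 1)).2 h3
      refine h4.congr fun m => ?_
      rw [show m + (n + 1) = n + (m + 1) by ring]
    refine Summable.of_nonneg_of_le (fun m => norm_nonneg _) (fun m => ?_)
      (hu2.add (OpsAux.h2_sq x))
    rw [norm_mul, RCLike.norm_conj]
    change ‖u (n + (m + 1))‖ * ‖x m‖ ≤ _
    nlinarith [sq_nonneg (‖u (n + (m + 1))‖ - ‖x m‖), sq_nonneg (‖u (n + (m + 1))‖),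
      sq_nonneg (‖x m‖), norm_nonneg (x m), norm_nonneg (u (n + (m + 1)))]
  rw [hs.tsum_eq_zero_add]
  have h0 : u (n + 0) * conj (shift x 0) = 0 := by simp [shift]
  rw [h0, zero_add]
  congr 1
end Pool.Agent.R286.HT
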