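import Pool.Agent.R286.HT.Stm

set_option autoImplicit false

open ComplexConjugate Finset

namespace Pool.Agent.R286.HT

namespace SpecAux

theorem l2_coe (x : H2) : L2 (x : ℕ → ℂ) := by
  have := (memℓp_gen_iff (p := 2) (by norm_num)).1 (lp.memℓp x)
  unfold L2
  refine this.congr fun n => ?_
  simp

theorem memlp {h : ℕ → ℂ} (hh : L2 h) : Memℓp h 2 := by
  rw [memℓp_gen_iff (by norm_num)]
  unfold L2 at hh
  refine hh.congr fun n => ?_
  simp

/-- general form -/
theorem gen (V : H2 →SL[starRingEnd ℂ] H2) (Op : (ℕ → ℂ) → ℕ → ℂ)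
    (hV : ∀ x : H2, ((V x : H2) : ℕ → ℂ) = Op x)
    (hVs : ∀ x y : H2, inner ℂ y (V x) = inner ℂ x (V y)) (hVc : IsCompactOperator V)
    (ρ : ℕ → ℝ) (hρ : ∀ j, 0 < ρ j) (hinj : ∀ i j, i ≠ j → ρ i ≠ ρ j)
    (hS : SimpleSpectrum Op ρ) :
    ∃ e : ℕ → H2, Orthonormal ℂ e ∧ (∀ j, ∃ c : ℂ, ‖c‖ = ρ j ∧ V (e j) = c • e j) ∧
      ∀ x, (∀ j, inner ℂ (e j) x = 0) → V x = 0 := by
  obtain ⟨hS1, hS2⟩ := hS
  -- the square
  let A : H2 →L[ℂ] H2 := V.comp V
  have hA : ∀ x, A x = V (V x) := fun x => rfl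
  have hAc : IsCompactOperator A := hVc.comp_clm V
  have hAOp : ∀ x : H2, ((A x : H2) : ℕ → ℂ) = Op (Op x) := by
    intro x
    rw [hA, hV, hV]
  have hin : ∀ x y : H2, inner ℂ x (A y) = inner ℂ (V y) (V x) := by
    intro x y
    rw [hA, hVs]
  have hsym : A.toLinearMap.IsSymmetric := by
    intro x y
    change inner ℂ (A x) y = inner ℂ x (A y)
    rw [← inner_conj_symm, hin, inner_conj_symm, hin]
  have hsym' : ∀ x y : H2, inner ℂ (A x) y = inner ℂ x (A y) := hsym
  have hnorm : ∀ x : H2, inner ℂ x (A x) = ((‖V x‖ ^ 2 : ℝ) : ℂ) := by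
    intro x
    rw [hin, inner_self_eq_norm_sq_to_K]
    push_cast
    rfl
  -- unit eigenvectors
  have hex : ∀ j, ∃ e : H2, ‖e‖ = 1 ∧ A e = ((ρ j ^ 2 : ℝ) : ℂ) • e := by
    intro j
    obtain ⟨h, hL, hne, heq⟩ := (hS1 (ρ j ^ 2) (by have := hρ j; positivity)).2 ⟨j, rfl⟩
    let x : H2 := ⟨h, memlp hL⟩
    have hx : (x : ℕ → ℂ) = h := rfl
    have hx0 : x ≠ 0 := by
      intro h0
      apply hne
      rw [← hx, h0]
      rfl
    have hAx : A x = ((ρ j ^ 2 : ℝ) : ℂ) • x := by
      apply lp.ext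
      rw [hAOp, hx, heq]
      rfl
    refine ⟨((‖x‖⁻¹ : ℝ) : ℂ) • x, ?_, ?_⟩
    · rw [norm_smul]
      have : ‖x‖ ≠ 0 := by simpa using hx0
      simp only [Complex.norm_real, norm_inv, norm_norm]
      field_simp
    · rw [map_smul, hAx, smul_comm]
  choose e he1 heA using hex
  have hne : ∀ j, e j ≠ 0 := by
    intro j h0
    have := he1 j
    rw [h0, norm_zero] at this
    exact zero_ne_one this
  -- eigenspaces are one-dimensional
  have hone : ∀ (j : ℕ) (x : H2), A x = ((ρ j ^ 2 : ℝ) : ℂ) • x → ∃ c : ℂ, x = c • e j := by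
    intro j x hx
    obtain ⟨c, hc⟩ := hS2 j (x : ℕ → ℂ) (e j : ℕ → ℂ) (l2_coe x) (l2_coe (e j))
      (by rw [← hAOp, hx]; rfl) (by rw [← hAOp, heA]; rfl)
      (by
        intro h0
        apply hne j
        apply lp.ext
        rw [h0]
        rfl)
    refine ⟨c, ?_⟩
    apply lp.ext
    rw [hc]
    rfl
  have hsq : ∀ i j, i ≠ j → ((ρ i ^ 2 : ℝ) : ℂ) ≠ ((ρ j ^ 2 : ℝ) : ℂ) := by
    intro i j hij h
    have h1 : ρ i ^ 2 = ρ j ^ 2 := by exact_mod_cast h
    apply hinj i j hij
    have h2 := hρ i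
    have h3 := hρ j
    nlinarith [mul_pos h2 h3]
  have horth : Orthonormal ℂ e := by
    refine ⟨he1, ?_⟩
    intro i j hij
    have h1 := hsym' (e i) (e j)
    rw [heA, heA, inner_smul_left, inner_smul_right, Complex.conj_ofReal] at h1
    have h2 : (((ρ i ^ 2 : ℝ) : ℂ) - ((ρ j ^ 2 : ℝ) : ℂ)) * inner ℂ (e i) (e j) = 0 := by
      rw [sub_mul, h1, sub_self]
    rcases mul_eq_zero.1 h2 with h3 | h3
    · exact absurd (sub_eq_zero.1 h3) (hsq i j hij)
    · exact h3
  refine ⟨e, horth, ?_, ?_⟩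
  · intro j
    have h1 : A (V (e j)) = ((ρ j ^ 2 : ℝ) : ℂ) • V (e j) := by
      rw [hA]
      have h2 : V (V (e j)) = ((ρ j ^ 2 : ℝ) : ℂ) • e j := by rw [← hA, heA]
      rw [h2, map_smulₛₗ, Complex.conj_ofReal]
    obtain ⟨c, hc⟩ := hone j _ h1
    refine ⟨c, ?_, hc⟩
    have h3 := hnorm (e j)
    rw [heA, inner_smul_right, inner_self_eq_norm_sq_to_K, he1, hc, norm_smul, he1] at h3
    have h4 : ρ j ^ 2 = ‖c‖ ^ 2 := by
      have : ((ρ j ^ 2 : ℝ) : ℂ) = ((‖c‖ ^ 2 : ℝ) : ℂ) := by simpa using h3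
      exact_mod_cast this
    have h5 := hρ j
    have h6 := norm_nonneg c
    nlinarith [sq_nonneg (‖c‖ - ρ j), sq_nonneg (‖c‖ + ρ j)]
  · intro x hx
    -- projection to the kernel of A
    let N : Submodule ℂ H2 := LinearMap.ker A.toLinearMap
    have hNc : IsClosed (N : Set H2) := ContinuousLinearMap.isClosed_ker A
    haveI : CompleteSpace N := hNc.completeSpace_coe
    let y : H2 := x - N.starProjection x
    have hPN : A (N.starProjection x) = 0 := by
      have : N.starProjection x ∈ N := Submodule.starProjection_apply_mem N x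
      exact this
    have hmem : y ∈ (⨆ μ, Module.End.eigenspace (A : Module.End ℂ H2) μ)ᗮ := by
      rw [← Submodule.iInf_orthogonal, Submodule.mem_iInf]
      intro μ w hw
      rw [Module.End.mem_eigenspace_iff] at hw
      change A w = μ • w at hw
      by_cases hw0 : w = 0
      · rw [hw0, inner_zero_left]
      have hw1 : ‖w‖ ≠ 0 := by simpa using hw0
      have h1 := hnorm w
      rw [hw, inner_smul_right, inner_self_eq_norm_sq_to_K] at h1
      have h2 : μ = ((‖V w‖ ^ 2 / ‖w‖ ^ 2 : ℝ) : ℂ) := by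
        have hw2 : ((‖w‖ : ℝ) : ℂ) ≠ 0 := by exact_mod_cast hw1
        push_cast
        push_cast at h1
        rw [eq_div_iff (pow_ne_zero 2 hw2)]
        exact h1
      set t : ℝ := ‖V w‖ ^ 2 / ‖w‖ ^ 2 with ht
      have ht0 : 0 ≤ t := by positivity
      rcases ht0.eq_or_lt with h0 | h0
      · have hwN : w ∈ N := by
          change A w = 0
          rw [hw, h2, ← h0]
          simp
        have := Submodule.starProjection_inner_eq_zero x w hwN
        rw [← inner_conj_symm]
        change conj (inner ℂ (x - N.starProjection x) w) = 0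
        rw [this, map_zero]
      · obtain ⟨j, hj⟩ := (hS1 t h0).1 ⟨(w : ℕ → ℂ), l2_coe w, by
          intro h3
          apply hw0
          apply lp.ext
          rw [h3]
          rfl, by
          rw [← hAOp, hw, h2]
          rfl⟩
        obtain ⟨c, hc⟩ := hone j w (by rw [hw, h2, hj])
        have h4 : inner ℂ (e j) (N.starProjection x) = 0 := by
          have h5 := hsym' (e j) (N.starProjection x)
          rw [heA, hPN, inner_zero_right, inner_smul_left] at h5
          rcases mul_eq_zero.1 h5 with h6 | h6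
          · exfalso
            rw [Complex.conj_ofReal] at h6
            have h7 : ρ j ^ 2 = 0 := by exact_mod_cast h6
            have := hρ j
            nlinarith
          · exact h6
        change inner ℂ w (x - N.starProjection x) = 0
        rw [hc, inner_smul_left, inner_sub_right, hx j, h4, sub_zero, mul_zero]
    rw [ContinuousLinearMap.orthogonalComplement_iSup_eigenspaces_eq_bot hAc hsym] at hmem
    have hy : y = 0 := by simpa using hmem
    have hxN : x = N.starProjection x := sub_eq_zero.1 hy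
    have hAx : A x = 0 := by rw [hxN]; exact hPN
    have h8 := hnorm x
    rw [hAx, inner_zero_right] at h8
    have h9 : ‖V x‖ ^ 2 = 0 := by exact_mod_cast h8.symm
    simpa using h9

end SpecAux

theorem spec : StSpec := by
  intro s hs hlt u hu T K hO
  obtain ⟨-, hu1, hu2⟩ := hu
  have hanti : StrictAnti s := strictAnti_nat_of_succ_lt hlt
  obtain ⟨e, he, he1, he2⟩ := SpecAux.gen T (hankel u) (fun x => funext fun n => hO.hT x n)
    hO.hTs hO.hTc (fun j => s (2 * j)) (fun j => hs _) (fun i j hij h => hij (by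
      have := hanti.injective h; omega)) hu1
  obtain ⟨f, hf, hf1, hf2⟩ := SpecAux.gen K (fun h => hankel u (shift h))
    (fun x => funext fun n => hO.hK x n)
    hO.hKs hO.hKc (fun j => s (2 * j + 1)) (fun j => hs _) (fun i j hij h => hij (by
      have := hanti.injective h; omega)) hu2
  exact ⟨e, f, he, hf, he1, hf1, he2, hf2⟩

end Pool.Agent.R286.HT
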